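import Pool.Agent.R736.HL.Lap

set_option autoImplicit false

/-! Distances, balls, and the supports of the kernels `P n (L)`. -/

open Polynomial

namespace Pool.Agent.R736.HL

variable {V : Type*} (G : SimpleGraph V)

section dist

theorem exists_pred (hG : G.Connected) {x y : V} {n : ℕ} (h : G.dist x y = n + 1) :
    ∃ z, G.Adj y z ∧ G.dist x z = n := by
  obtain ⟨p, hp⟩ := hG.exists_walk_length_eq_dist y x
  rw [SimpleGraph.dist_comm, h] at hp
  cases p with
  | nil => simp at hp
  | @cons _ z _ hadj q =>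
    refine ⟨z, hadj, ?_⟩
    rw [SimpleGraph.Walk.length_cons] at hp
    have h1 : G.dist z x ≤ n := (SimpleGraph.dist_le q).trans (by omega)
    have h2 : G.dist y x ≤ G.dist y z + G.dist z x := hG.dist_triangle
    have h3 : G.dist y z = 1 := SimpleGraph.dist_eq_one_iff_adj.2 hadj
    rw [SimpleGraph.dist_comm, h] at h2
    rw [SimpleGraph.dist_comm]
    omega

theorem dist_adj_le (hG : G.Connected) {x y z : V} (h : G.Adj y z) :
    G.dist x y ≤ G.dist x z + 1 := by
  have h2 : G.dist x y ≤ G.dist x z + G.dist z y := hG.dist_triangle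
  have h3 : G.dist z y = 1 := SimpleGraph.dist_eq_one_iff_adj.2 h.symm
  omega

theorem exists_mid (hG : G.Connected) (x : V) (N M : ℕ) (y : V) (h : G.dist x y = N + M) :
    ∃ m, G.dist x m = N ∧ G.dist m y = M := by
  induction M generalizing y with
  | zero => exact ⟨y, h, by simp⟩
  | succ M ih =>
    obtain ⟨z, hz, hz'⟩ := exists_pred G hG (x := x) (y := y) (n := N + M) (by omega)
    obtain ⟨m, hm, hm'⟩ := ih z hz'
    refine ⟨m, hm, ?_⟩
    have h1 := dist_adj_le G hG (x := m) hz
    have h2 : G.dist x y ≤ G.dist x m + G.dist m y := hG.dist_triangle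
    omega

variable [G.LocallyFinite]

theorem finite_ball (hG : G.Connected) (x : V) (n : ℕ) : {y | G.dist x y ≤ n}.Finite := by
  induction n with
  | zero =>
    refine (Set.finite_singleton x).subset fun y hy => ?_
    have hy' : G.dist x y ≤ 0 := hy
    exact (hG.dist_eq_zero_iff.1 (Nat.le_zero.1 hy')).symm
  | succ n ih =>
    refine (ih.union (ih.biUnion fun z _ => (G.neighborFinset z).finite_toSet)).subset ?_
    intro y hy
    have hy' : G.dist x y ≤ n + 1 := hy
    by_cases h : G.dist x y ≤ n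
    · exact Or.inl h
    · obtain ⟨z, hz, hz'⟩ := exists_pred G hG (x := x) (y := y) (n := n) (by omega)
      right
      refine Set.mem_biUnion (x := z) (show G.dist x z ≤ n by omega) ?_
      rw [Finset.mem_coe, SimpleGraph.mem_neighborFinset]
      exact hz.symm

theorem exists_dist (hG : G.Connected) [Infinite V] (x : V) (N : ℕ) : ∃ y, G.dist x y = N := by
  have h1 : ∃ y, N ≤ G.dist x y := by
    by_contra hcon
    push Not at hcon
    refine Set.infinite_univ (α := V) ((finite_ball G hG x N).subset fun y _ => ?_)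
    exact (hcon y).le
  obtain ⟨y, hy⟩ := h1
  obtain ⟨m, hm, _⟩ := exists_mid G hG x N (G.dist x y - N) y (by omega)
  exact ⟨m, hm⟩

omit [G.LocallyFinite] in
theorem dist_iso (hG : G.Connected) (φ : G ≃g G) (x y : V) : G.dist (φ x) (φ y) = G.dist x y := by
  have h1 : ∀ (φ : G ≃g G) (x y : V), G.dist (φ x) (φ y) ≤ G.dist x y := by
    intro φ x y
    obtain ⟨p, hp⟩ := hG.exists_walk_length_eq_dist x y
    have := SimpleGraph.dist_le (p.map φ.toHom)
    rw [SimpleGraph.Walk.length_map, hp] at this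
    exact this
  refine le_antisymm (h1 φ x y) ?_
  have := h1 φ.symm (φ x) (φ y)
  simpa using this

theorem exists_far (hG : G.Connected) [Infinite V] (ht : ∀ x y : V, ∃ φ : G ≃g G, φ x = y)
    (x x' : V) (N : ℕ) : ∃ y, G.dist x y = N ∧ N ≤ G.dist x' y := by
  obtain ⟨y0, hy0⟩ := exists_dist G hG x (N + N)
  obtain ⟨m, hm, hm'⟩ := exists_mid G hG x N N y0 hy0
  obtain ⟨φ, hφ⟩ := ht m x
  have h1 : G.dist x (φ x) = N := by
    rw [← hm, ← dist_iso G hG φ x m, hφ, SimpleGraph.dist_comm]
  have h2 : G.dist x (φ y0) = N := by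
    rw [← hm', ← dist_iso G hG φ m y0, hφ]
  have h3 : G.dist (φ x) (φ y0) = N + N := by
    rw [dist_iso G hG φ, hy0]
  by_cases h4 : N ≤ G.dist x' (φ x)
  · exact ⟨φ x, h1, h4⟩
  · refine ⟨φ y0, h2, ?_⟩
    have h5 : G.dist (φ x) (φ y0) ≤ G.dist (φ x) x' + G.dist x' (φ y0) := hG.dist_triangle
    have h6 : G.dist (φ x) x' = G.dist x' (φ x) := SimpleGraph.dist_comm
    omega

end dist

variable [G.LocallyFinite]

theorem aeval_rec (p : ℤ[X]) (f : V →₀ ℤ) :
    aeval (lap G) ((X + 2) * p) f = lap G (aeval (lap G) p f) + (2 : ℤ) • aeval (lap G) p f := by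
  have h1 : ((X + 2) * p : ℤ[X]) = X * p + (2 : ℤ) • p := by
    rw [add_mul, zsmul_eq_mul]; norm_num
  rw [h1, map_add, map_mul, aeval_X, map_smul]
  rfl

theorem P_rec (n : ℕ) (f : V →₀ ℤ) :
    aeval (lap G) (P (n + 2)) f = lap G (aeval (lap G) (P (n + 1)) f) +
      (2 : ℤ) • aeval (lap G) (P (n + 1)) f - aeval (lap G) (P n) f := by
  rw [P_succ_succ, map_sub, LinearMap.sub_apply, aeval_rec]

theorem K_rec (n : ℕ) (x y : V) : K G (P (n + 2)) x y = (2 + G.degree y) * K G (P (n + 1)) x y
    - (∑ z ∈ G.neighborFinset y, K G (P (n + 1)) x z) - K G (P n) x y := by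
  rw [K, P_rec, Finsupp.sub_apply, Finsupp.add_apply, lap_apply, Finsupp.smul_apply, smul_eq_mul]
  simp only [K]
  ring

theorem K_one (x y : V) : K G (P 1) x y = Finsupp.single x (1 : ℤ) y := by
  rw [K, P_one, map_one]; rfl

theorem K_zero (x y : V) : K G (P 0) x y = 0 := by
  rw [K, P_zero, map_zero]; rfl

theorem K_P (hG : G.Connected) (x : V) (n : ℕ) :
    (∀ y, n ≤ G.dist x y → K G (P n) x y = 0) ∧
    (∀ y, G.dist x y + 1 = n → 0 < (-1) ^ (n + 1) * K G (P n) x y) := by
  classical
  induction n using Nat.strong_induction_on with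
  | _ n ih =>
    match n, ih with
    | 0, _ =>
      exact ⟨fun y _ => K_zero G x y, fun y hy => by omega⟩
    | 1, _ =>
      refine ⟨fun y hy => ?_, fun y hy => ?_⟩
      · rw [K_one, Finsupp.single_apply, if_neg]
        rintro rfl
        simp at hy
      · have : x = y := hG.dist_eq_zero_iff.1 (by omega)
        rw [K_one, ← this]; simp
    | (n + 2), ih =>
      obtain ⟨a1, a2⟩ := ih (n + 1) (by omega)
      obtain ⟨b1, b2⟩ := ih n (by omega)
      refine ⟨fun y hy => ?_, fun y hy => ?_⟩
      · rw [K_rec, a1 y (by omega), b1 y (by omega), Finset.sum_eq_zero]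
        · ring
        · intro z hz
          rw [SimpleGraph.mem_neighborFinset] at hz
          have := dist_adj_le G hG (x := x) hz
          exact a1 z (by omega)
      · rw [K_rec, a1 y (by omega), b1 y (by omega)]
        obtain ⟨z0, hz0, hz0'⟩ := exists_pred G hG (x := x) (y := y) (n := n) (by omega)
        have h1 : 0 < ∑ z ∈ G.neighborFinset y, (-1) ^ (n + 1 + 1) * K G (P (n + 1)) x z := by
          refine Finset.sum_pos' (fun z hz => ?_) ⟨z0, ?_, a2 z0 (by omega)⟩
          · rw [SimpleGraph.mem_neighborFinset] at hz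
            have := dist_adj_le G hG (x := x) hz
            rcases Nat.lt_or_ge (G.dist x z) (n + 1) with h | h
            · exact (a2 z (by omega)).le
            · rw [a1 z h, mul_zero]
          · rw [SimpleGraph.mem_neighborFinset]; exact hz0
        rw [← Finset.mul_sum] at h1
        have h2 : ((-1 : ℤ)) ^ (n + 2 + 1) = - (-1) ^ (n + 1 + 1) := by ring
        rw [h2]
        nlinarith [h1]

end Pool.Agent.R736.HL
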