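import Pool.Agent.R736.HL.Ker

set_option autoImplicit false

/-! Families of differences of sites at the same height. -/

open Polynomial

namespace Pool.Agent.R736.HL

variable {V : Type*}

/-- the `inl`-part of `f` is supported in `S1` -/
def Sup1 (S1 : Finset V) (f : (V ⊕ V) →₀ ℤ) : Prop := ∀ z, f (Sum.inl z) ≠ 0 → z ∈ S1

/-- a tame family: if infinitely many members have their `inl`-part supported in `S1` then all of them are
supported in a finite set and their coordinates are exponential sums -/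
def Tame (S1 : Finset V) (F : ℕ → (V ⊕ V) →₀ ℤ) : Prop :=
  {m | Sup1 S1 (F m)}.Infinite → ∃ W : Finset (V ⊕ V), (∀ m, (F m).support ⊆ W) ∧
    ∀ w, ExpSum (fun m => ((F m w : ℤ) : ℝ))

theorem Tame.finite {S1 : Finset V} {F : ℕ → (V ⊕ V) →₀ ℤ} (hF : Tame S1 F) :
    {w | ∃ m, Sup1 S1 (F m) ∧ F m w ≠ 0}.Finite := by
  by_cases h : {m | Sup1 S1 (F m)}.Infinite
  · obtain ⟨W, hW, -⟩ := hF h
    refine W.finite_toSet.subset ?_
    rintro w ⟨m, -, hm⟩
    exact hW m (Finsupp.mem_support_iff.2 hm)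
  · rw [Set.not_infinite] at h
    refine (h.biUnion fun m _ => (F m).support.finite_toSet).subset ?_
    rintro w ⟨m, hm, hw⟩
    exact Set.mem_biUnion (x := m) hm (Finsupp.mem_support_iff.2 hw)

theorem Tame.sparse {S1 : Finset V} {F : ℕ → (V ⊕ V) →₀ ℤ} (hF : Tame S1 F) (v : V ⊕ V)
    (σ : V ⊕ V → ℤ) :
    Sparse {t : ℕ | ∃ m, Sup1 S1 (F m) ∧ F m v ≠ 0 ∧ F m v * (t : ℤ) + (ev (F m) σ - F m v * σ v) = 0} := by
  classical
  by_cases h : {m | Sup1 S1 (F m)}.Infinite
  · obtain ⟨W, hW, hE⟩ := hF h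
    have h1 : ExpSum (fun m => ((ev (F m) σ - F m v * σ v : ℤ) : ℝ)) := by
      have h2 : (fun m => ((ev (F m) σ - F m v * σ v : ℤ) : ℝ)) =
          fun m => (∑ w ∈ W, (σ w : ℝ) * ((F m w : ℤ) : ℝ)) + (- (σ v : ℝ)) * ((F m v : ℤ) : ℝ) := by
        funext m
        rw [ev_eq_of_subset (F m) σ (hW m)]
        push_cast
        rw [Finset.sum_congr rfl fun w _ => mul_comm ((F m w : ℤ) : ℝ) (σ w : ℝ)]
        ring
      rw [h2]
      exact (ExpSum.sum fun w _ => (hE w).smul _).add ((hE v).smul _)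
    refine (sparse_ratio (hE v) h1).mono ?_
    rintro t ⟨m, -, h2, h3⟩
    refine ⟨m, by exact_mod_cast h2, ?_⟩
    exact_mod_cast h3
  · rw [Set.not_infinite] at h
    refine sparse_finite ((h.biUnion (t := fun m => {t : ℕ | F m v ≠ 0 ∧
      F m v * (t : ℤ) + (ev (F m) σ - F m v * σ v) = 0}) fun m _ => ?_).subset ?_)
    · refine Set.Subsingleton.finite ?_
      rintro t ⟨h1, h2⟩ t' ⟨_, h3⟩
      have : F m v * (t : ℤ) = F m v * (t' : ℤ) := by linarith
      exact_mod_cast mul_left_cancel₀ h1 this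
    · rintro t ⟨m, h1, h2⟩
      exact Set.mem_biUnion (x := m) h1 h2

variable (G : SimpleGraph V) [G.LocallyFinite]

theorem tame_pos (hG : G.Connected) [Infinite V] (u : V →₀ ℤ) (S1 : Finset V) :
    Tame S1 (fun m => Finsupp.sumElim (A G ((m : ℤ) + 1) u) (- A G ((m : ℤ) + 1 - 1) u)) := by
  classical
  intro h
  have e1 : ∀ m : ℕ, A G ((m : ℤ) + 1) u = aeval (lap G) (P (m + 1)) u := fun m => by
    rw [← A_nat]; push_cast; rfl
  have e2 : ∀ m : ℕ, A G ((m : ℤ) + 1 - 1) u = aeval (lap G) (P m) u := fun m => by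
    rw [← A_nat]; congr 2; ring
  obtain ⟨Q, hQ, hQu⟩ := exists_ann G u S1 (h.mono fun m hm z hz => by
    refine hm z ?_
    rw [Finsupp.sumElim_inl, e1]
    exact Finsupp.mem_support_iff.1 hz)
  obtain ⟨W, hW⟩ := exists_W G u hQ hQu
  refine ⟨W.disjSum W, fun m => ?_, fun w => ?_⟩
  · intro w hw
    rw [Finsupp.mem_support_iff] at hw
    rcases w with z | z
    · rw [Finset.inl_mem_disjSum]
      rw [Finsupp.sumElim_inl, e1] at hw
      exact hW _ (Finsupp.mem_support_iff.2 hw)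
    · rw [Finset.inr_mem_disjSum]
      rw [Finsupp.sumElim_inr, e2, Finsupp.neg_apply, neg_ne_zero] at hw
      exact hW _ (Finsupp.mem_support_iff.2 hw)
  · rcases w with z | z
    · simp only [Finsupp.sumElim_inl, e1]
      exact (expSum_coord G hG u W (fun m => hW _) z).shift
    · simp only [Finsupp.sumElim_inr, e2, Finsupp.neg_apply]
      have := (expSum_coord G hG u W (fun m => hW _) z).smul (-1)
      simpa using this

theorem tame_neg (hG : G.Connected) [Infinite V] (u : V →₀ ℤ) (S1 : Finset V) :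
    Tame S1 (fun m => Finsupp.sumElim (A G (-((m : ℤ) + 1)) u) (- A G (-((m : ℤ) + 1) - 1) u)) := by
  classical
  intro h
  have e1 : ∀ m : ℕ, A G (-((m : ℤ) + 1)) u = - aeval (lap G) (P (m + 1)) u := fun m => by
    rw [← A_nat, ← A_neg]; push_cast; rfl
  have e2 : ∀ m : ℕ, A G (-((m : ℤ) + 1) - 1) u = - aeval (lap G) (P (m + 2)) u := fun m => by
    rw [← A_nat, ← A_neg]; congr 2
  obtain ⟨Q, hQ, hQu⟩ := exists_ann G u S1 (h.mono fun m hm z hz => by
    refine hm z ?_
    rw [Finsupp.sumElim_inl, e1, Finsupp.neg_apply, neg_ne_zero]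
    exact Finsupp.mem_support_iff.1 hz)
  obtain ⟨W, hW⟩ := exists_W G u hQ hQu
  refine ⟨W.disjSum W, fun m => ?_, fun w => ?_⟩
  · intro w hw
    rw [Finsupp.mem_support_iff] at hw
    rcases w with z | z
    · rw [Finset.inl_mem_disjSum]
      rw [Finsupp.sumElim_inl, e1, Finsupp.neg_apply, neg_ne_zero] at hw
      exact hW _ (Finsupp.mem_support_iff.2 hw)
    · rw [Finset.inr_mem_disjSum]
      rw [Finsupp.sumElim_inr, e2, neg_neg] at hw
      exact hW _ (Finsupp.mem_support_iff.2 hw)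
  · rcases w with z | z
    · simp only [Finsupp.sumElim_inl, e1, Finsupp.neg_apply]
      have := (expSum_coord G hG u W (fun m => hW _) z).shift.smul (-1)
      simpa using this
    · simp only [Finsupp.sumElim_inr, e2, neg_neg]
      exact (expSum_coord G hG u W (fun m => hW _) z).shift.shift

end Pool.Agent.R736.HL
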