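import Pool.Agent.R736.HL.Sparse
import Pool.Agent.R736.HL.Dist

set_option autoImplicit false

/-! If infinitely many `P (m+1) (L) u` are supported in a fixed finite set, then all are supported in a finite set
and their values are exponential sums. -/

open Polynomial

namespace Pool.Agent.R736.HL

variable {V : Type*} (G : SimpleGraph V) [G.LocallyFinite]

theorem P_monic (n : ℕ) : (P (n + 1)).Monic ∧ (P (n + 1)).degree = n ∧ (P n).degree < (n : WithBot ℕ) := by
  induction n with
  | zero => rw [P_zero, zero_add, P_one]; exact ⟨monic_one, by simp, by simp⟩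
  | succ n ih =>
    obtain ⟨h1, h2, h3⟩ := ih
    have hX : (X + 2 : ℤ[X]).Monic := by
      have := monic_X_add_C (2 : ℤ); simpa using this
    have hXd : (X + 2 : ℤ[X]).degree = 1 := by
      have := degree_X_add_C (2 : ℤ); simpa using this
    have h4 : ((X + 2) * P (n + 1)).Monic := hX.mul h1
    have h5 : ((X + 2) * P (n + 1)).degree = ((n + 1 : ℕ) : WithBot ℕ) := by
      rw [degree_mul, h2, hXd]; push_cast; rw [add_comm]
    have h6 : (P n).degree < ((X + 2) * P (n + 1)).degree := by
      rw [h5]; exact h3.trans (by exact_mod_cast Nat.lt_succ_self n)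
    refine ⟨?_, ?_, ?_⟩
    · rw [P_succ_succ]; exact h4.sub_of_left h6
    · rw [P_succ_succ, degree_sub_eq_left_of_degree_lt h6, h5]
    · rw [h2]; exact_mod_cast Nat.lt_succ_self n

/-- the sequence of polynomials `P (n+1)` -/
noncomputable def PS : Polynomial.Sequence ℤ := ⟨fun n => P (n + 1), fun n => (P_monic n).2.1⟩

theorem exists_ann (u : V →₀ ℤ) (S1 : Finset V)
    (h : {m : ℕ | (aeval (lap G) (P (m + 1)) u).support ⊆ S1}.Infinite) :
    ∃ Q : ℤ[X], Q ≠ 0 ∧ aeval (lap G) Q u = 0 := by
  classical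
  by_contra hcon
  push Not at hcon
  set A : Set ℕ := {m : ℕ | (aeval (lap G) (P (m + 1)) u).support ⊆ S1} with hA
  have hlin := PS.linearIndependent
  rw [linearIndependent_iff'] at hlin
  have key : LinearIndependent ℤ (fun (m : A) (z : S1) => aeval (lap G) (P ((m : ℕ) + 1)) u z) := by
    rw [linearIndependent_iff']
    intro s c hc i hi
    have h1 : aeval (lap G) (∑ m ∈ s, c m • P ((m : ℕ) + 1)) u = 0 := by
      rw [map_sum, LinearMap.sum_apply]
      ext z
      rw [Finsupp.finsetSum_apply]
      simp only [map_smul, LinearMap.smul_apply, Finsupp.smul_apply]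
      by_cases hz : z ∈ S1
      · have := congr_fun hc ⟨z, hz⟩
        simpa [Finset.sum_apply] using this
      · refine Finset.sum_eq_zero fun m _ => ?_
        rw [Finsupp.notMem_support_iff.1 (fun h' => hz (m.2 h')), smul_zero]
    have h2 : (∑ m ∈ s, c m • P ((m : ℕ) + 1)) = 0 := by
      by_contra h3
      exact hcon _ h3 h1
    have h3 := hlin (s.map ⟨Subtype.val, Subtype.val_injective⟩)
      (fun n => if hn : n ∈ A then c ⟨n, hn⟩ else 0) (by
        rw [Finset.sum_map]
        rw [← h2]
        refine Finset.sum_congr rfl fun m _ => ?_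
        have : (m : ℕ) ∈ A := m.2
        simp only [Function.Embedding.coeFn_mk]
        rw [dif_pos this]
        rfl) i (Finset.mem_map.2 ⟨i, hi, rfl⟩)
    rw [dif_pos i.2] at h3
    exact h3
  have hfin : Finite A := LinearIndependent.finite_of_isNoetherian key
  exact h (Set.toFinite A)

theorem exists_W (u : V →₀ ℤ) {Q : ℤ[X]} (hQ : Q ≠ 0) (hQu : aeval (lap G) Q u = 0) :
    ∃ W : Finset V, ∀ p : ℤ[X], (aeval (lap G) p u).support ⊆ W := by
  classical
  set e := Q.natDegree
  set W : Finset V := (Finset.range e).biUnion fun j => ((lap G ^ j) u).support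
  have h1 : ∀ z, z ∉ W → ∀ m, ((lap G ^ m) u) z = 0 := by
    intro z hz m
    induction m using Nat.strong_induction_on with
    | _ m ih =>
      rcases Nat.lt_or_ge m e with hm | hm
      · by_contra h2
        exact hz (Finset.mem_biUnion.2 ⟨m, Finset.mem_range.2 hm, Finsupp.mem_support_iff.2 h2⟩)
      · obtain ⟨k, rfl⟩ := Nat.exists_eq_add_of_le hm
        have h2 : (lap G ^ k) (aeval (lap G) Q u) = 0 := by rw [hQu, map_zero]
        rw [aeval_apply_eq, map_sum] at h2
        have h3 := DFunLike.congr_fun h2 z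
        rw [Finsupp.finsetSum_apply, Finset.sum_range_succ, Finset.sum_eq_zero, zero_add, map_smul,
          Finsupp.smul_apply, ← Module.End.mul_apply, ← pow_add, smul_eq_mul, Finsupp.zero_apply,
          mul_eq_zero] at h3
        · rcases h3 with h3 | h3
          · exact absurd (leadingCoeff_eq_zero.1 h3) hQ
          · rw [add_comm]; exact h3
        · intro i hi
          rw [Finset.mem_range] at hi
          rw [map_smul, Finsupp.smul_apply, ← Module.End.mul_apply, ← pow_add, ih (k + i) (by omega),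
            smul_zero]
  refine ⟨W, fun p z hz => ?_⟩
  by_contra hzW
  rw [Finsupp.mem_support_iff, aeval_apply_eq, Finsupp.finsetSum_apply] at hz
  refine hz (Finset.sum_eq_zero fun i _ => ?_)
  rw [Finsupp.smul_apply, h1 z hzW, smul_zero]

theorem expSum_rec {c : ℕ → ℝ} {l : ℝ} (hl : 0 < l) (h0 : c 0 = 0)
    (hrec : ∀ n, c (n + 2) = (l + 2) * c (n + 1) - c n) : ExpSum c := by
  set s := Real.sqrt ((l + 2) ^ 2 - 4) with hs
  have h1 : 0 < (l + 2) ^ 2 - 4 := by nlinarith
  have h2 : s ^ 2 = (l + 2) ^ 2 - 4 := Real.sq_sqrt h1.le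
  have h3 : 0 < s := Real.sqrt_pos.2 h1
  set q := (l + 2 + s) / 2 with hq
  set q' := (l + 2 - s) / 2 with hq'
  have h4 : 0 < q := by positivity
  have h5 : 0 < q' := by
    have : s < l + 2 := by nlinarith
    rw [hq']; linarith
  have h6 : q ^ 2 = (l + 2) * q - 1 := by rw [hq]; nlinarith
  have h7 : q' ^ 2 = (l + 2) * q' - 1 := by rw [hq']; nlinarith
  have h8 : q - q' = s := by rw [hq, hq']; ring
  have h9 : ∀ n, c n = c 1 / s * (q ^ n - q' ^ n) ∧ c (n + 1) = c 1 / s * (q ^ (n + 1) - q' ^ (n + 1)) := by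
    intro n
    induction n with
    | zero =>
      refine ⟨by rw [h0]; simp, ?_⟩
      rw [zero_add, pow_one, pow_one, h8, div_mul_cancel₀ _ h3.ne']
    | succ n ih =>
      refine ⟨ih.2, ?_⟩
      rw [hrec, ih.1, ih.2]
      have e1 : q ^ (n + 1 + 1) = (l + 2) * q ^ (n + 1) - q ^ n := by
        have : q ^ (n + 1 + 1) = q ^ n * q ^ 2 := by ring
        rw [this, h6]; ring
      have e2 : q' ^ (n + 1 + 1) = (l + 2) * q' ^ (n + 1) - q' ^ n := by
        have : q' ^ (n + 1 + 1) = q' ^ n * q' ^ 2 := by ring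
        rw [this, h7]; ring
      rw [e1, e2]; ring
  have h10 : c = fun n => c 1 / s * (q ^ n + (-1) * q' ^ n) := by
    funext n; rw [(h9 n).1]; ring
  rw [h10]
  exact ((expSum_pow h4).add ((expSum_pow h5).smul (-1))).smul _

end Pool.Agent.R736.HL
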