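import Pool.Agent.R736.HL.Lap

set_option autoImplicit false

/-! The abstract greedy construction. -/

namespace Pool.Agent.R736.HL

variable {U Site : Type*} (cf : Site → U →₀ ℤ)

/-- the invariant -/
def Inv (S : Finset U) (σ : U → ℤ) : Prop :=
  ∀ s s' : Site, s ≠ s' → (cf s - cf s').support ⊆ S → ev (cf s - cf s') σ ≠ 0

/-- states of the construction -/
structure St where
  /-- the assigned variables -/
  S : Finset U
  /-- the values -/
  σ : U → ℤ
  /-- the invariant holds -/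
  inv : Inv cf S σ

instance : Preorder (St cf) where
  le p q := p.S ⊆ q.S ∧ ∀ x ∈ p.S, p.σ x = q.σ x
  le_refl p := ⟨subset_rfl, fun _ _ => rfl⟩
  le_trans p q r h1 h2 := ⟨h1.1.trans h2.1, fun x hx => (h1.2 x hx).trans (h2.2 x (h1.1 hx))⟩

theorem greedy [DecidableEq U] [Countable U] (h0 : ∀ s s', s ≠ s' → cf s ≠ cf s')
    (H1 : ∀ S σ v, Inv cf S σ → v ∉ S → ∃ t, Inv cf (insert v S) (Function.update σ v t))
    (H2 : ∀ S σ z, Inv cf S σ → (∀ s, (cf s).support ⊆ S → ev (cf s) σ ≠ z) →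
      ∃ v ∉ S, ∃ s, (cf s).support ⊆ insert v S ∧ Inv cf (insert v S) (Function.update σ v z) ∧
        ev (cf s) (Function.update σ v z) = z) :
    ∃ σ : U → ℤ, Function.Bijective fun s => ev (cf s) σ := by
  have hle : ∀ (p : St cf) (v : U) (t : ℤ) (hv : v ∉ p.S) (h : Inv cf (insert v p.S) (Function.update p.σ v t)),
      p ≤ ⟨insert v p.S, Function.update p.σ v t, h⟩ := by
    intro p v t hv h
    refine ⟨Finset.subset_insert _ _, fun x hx => ?_⟩
    show p.σ x = Function.update p.σ v t x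
    rw [Function.update_of_ne]
    rintro rfl
    exact hv hx
  have hc1 : ∀ v : U, ∀ p : St cf, ∃ q : St cf, p ≤ q ∧ v ∈ q.S := by
    intro v p
    by_cases hv : v ∈ p.S
    · exact ⟨p, le_refl _, hv⟩
    · obtain ⟨t, ht⟩ := H1 p.S p.σ v p.inv hv
      exact ⟨_, hle p v t hv ht, Finset.mem_insert_self _ _⟩
  have hc2 : ∀ z : ℤ, ∀ p : St cf, ∃ q : St cf, p ≤ q ∧ ∃ s, (cf s).support ⊆ q.S ∧ ev (cf s) q.σ = z := by
    intro z p
    by_cases h : ∃ s, (cf s).support ⊆ p.S ∧ ev (cf s) p.σ = z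
    · exact ⟨p, le_refl _, h⟩
    · push Not at h
      obtain ⟨v, hv, s, hs, hI, hz⟩ := H2 p.S p.σ z p.inv h
      exact ⟨_, hle p v z hv hI, s, hs, hz⟩
  let D : U ⊕ ℤ → Order.Cofinal (St cf) := fun τ => match τ with
    | Sum.inl v => ⟨{q | v ∈ q.S}, fun p => by
        obtain ⟨q, h1, h2⟩ := hc1 v p; exact ⟨q, h2, h1⟩⟩
    | Sum.inr z => ⟨{q | ∃ s, (cf s).support ⊆ q.S ∧ ev (cf s) q.σ = z}, fun p => by
        obtain ⟨q, h1, h2⟩ := hc2 z p; exact ⟨q, h2, h1⟩⟩
  have : Encodable (U ⊕ ℤ) := Encodable.ofCountable _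
  let p0 : St cf := ⟨∅, fun _ => 0, by
    intro s s' hs hsupp
    exfalso
    rw [Finset.subset_empty, Finsupp.support_eq_empty, sub_eq_zero] at hsupp
    exact h0 s s' hs hsupp⟩
  set p := Order.sequenceOfCofinals p0 D with hp
  have hmono : Monotone p := Order.sequenceOfCofinals.monotone p0 D
  have hv : ∀ v, ∃ k, v ∈ (p k).S := fun v =>
    ⟨_, Order.sequenceOfCofinals.encode_mem p0 D (Sum.inl v)⟩
  have hz : ∀ z, ∃ k, ∃ s, (cf s).support ⊆ (p k).S ∧ ev (cf s) (p k).σ = z := fun z =>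
    ⟨_, Order.sequenceOfCofinals.encode_mem p0 D (Sum.inr z)⟩
  choose k hk using hv
  let σ : U → ℤ := fun v => (p (k v)).σ v
  have hσ : ∀ m, ∀ v ∈ (p m).S, σ v = (p m).σ v := by
    intro m v hvm
    rcases le_total m (k v) with h | h
    · exact ((hmono h).2 v hvm).symm
    · exact (hmono h).2 v (hk v)
  have hσev : ∀ m (f : U →₀ ℤ), f.support ⊆ (p m).S → ev f σ = ev f (p m).σ := by
    intro m f hf
    exact ev_congr fun x hx => hσ m x (hf hx)
  have hcov : ∀ F : Finset U, ∃ m, F ⊆ (p m).S := by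
    intro F
    refine ⟨F.sup k, fun v hv => ?_⟩
    exact (hmono (Finset.le_sup hv)).1 (hk v)
  refine ⟨σ, ?_, ?_⟩
  · intro s s' h
    by_contra hne
    obtain ⟨m, hm⟩ := hcov (cf s - cf s').support
    refine (p m).inv s s' hne hm ?_
    rw [← hσev m _ hm, ev_sub]
    simpa [sub_eq_zero] using h
  · intro z
    obtain ⟨m, s, hs, hsz⟩ := hz z
    exact ⟨s, by simp only; rw [hσev m _ hs, hsz]⟩

end Pool.Agent.R736.HL
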