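import Pool.Agent.R736.HL.Spec
import Pool.Agent.R736.HL.Greedy

set_option autoImplicit false

/-! The kernels `PZ n (L)`, `n : ℤ`, and the linear forms attached to the sites of `G × ℤ`. -/

open Polynomial

namespace Pool.Agent.R736.HL

variable {V : Type*} (G : SimpleGraph V) [G.LocallyFinite]

/-- `PZ n = sign n • P |n|` -/
noncomputable def PZ (n : ℤ) : ℤ[X] := n.sign • P n.natAbs

theorem PZ_nat (m : ℕ) : PZ m = P m := by
  rw [PZ, Int.natAbs_natCast]
  rcases Nat.eq_zero_or_pos m with rfl | h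
  · rw [P_zero, smul_zero]
  · rw [Int.sign_eq_one_of_pos (by exact_mod_cast h), one_smul]

theorem PZ_neg (n : ℤ) : PZ (-n) = - PZ n := by
  rw [PZ, PZ, Int.natAbs_neg, Int.sign_neg, neg_smul]

theorem PZ_zero : PZ 0 = 0 := by
  have := PZ_nat 0; rw [P_zero] at this; exact_mod_cast this

theorem PZ_one : PZ 1 = 1 := by
  have := PZ_nat 1; rw [P_one] at this; exact_mod_cast this

theorem PZ_rec (n : ℤ) : PZ (n + 1) + PZ (n - 1) = (X + 2) * PZ n := by
  obtain ⟨m, rfl | rfl⟩ := n.eq_nat_or_neg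
  · cases m with
    | zero =>
      have h1 : ((0 : ℕ) : ℤ) + 1 = 1 := by norm_num
      have h2 : ((0 : ℕ) : ℤ) - 1 = -1 := by norm_num
      have h3 : ((0 : ℕ) : ℤ) = 0 := by norm_num
      rw [h1, h2, h3, PZ_neg, PZ_zero]; ring
    | succ m =>
      have h1 : ((m + 1 : ℕ) : ℤ) + 1 = ((m + 2 : ℕ) : ℤ) := by push_cast; ring
      have h2 : ((m + 1 : ℕ) : ℤ) - 1 = (m : ℤ) := by push_cast; ring
      rw [h1, h2, PZ_nat, PZ_nat, PZ_nat, P_succ_succ]; ring
  · cases m with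
    | zero =>
      have h1 : -((0 : ℕ) : ℤ) + 1 = 1 := by norm_num
      have h2 : -((0 : ℕ) : ℤ) - 1 = -1 := by norm_num
      have h3 : -((0 : ℕ) : ℤ) = 0 := by norm_num
      rw [h1, h2, h3, PZ_neg, PZ_zero]; ring
    | succ m =>
      have h1 : -((m + 1 : ℕ) : ℤ) + 1 = -(m : ℤ) := by push_cast; ring
      have h2 : -((m + 1 : ℕ) : ℤ) - 1 = -((m + 2 : ℕ) : ℤ) := by push_cast; ring
      rw [h1, h2, PZ_neg, PZ_neg, PZ_neg, PZ_nat, PZ_nat, PZ_nat, P_succ_succ]; ring

/-- the operator `PZ n (L)` -/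
noncomputable def A (n : ℤ) : (V →₀ ℤ) →ₗ[ℤ] (V →₀ ℤ) := aeval (lap G) (PZ n)

theorem A_nat (m : ℕ) (f : V →₀ ℤ) : A G m f = aeval (lap G) (P m) f := by rw [A, PZ_nat]

theorem A_neg (n : ℤ) (f : V →₀ ℤ) : A G (-n) f = - A G n f := by
  rw [A, PZ_neg, map_neg, LinearMap.neg_apply, A]

theorem A_zero (f : V →₀ ℤ) : A G 0 f = 0 := by rw [A, PZ_zero, map_zero]; rfl

theorem A_one (f : V →₀ ℤ) : A G 1 f = f := by rw [A, PZ_one, map_one]; rfl

theorem A_rec (n : ℤ) (f : V →₀ ℤ) :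
    A G (n + 1) f + A G (n - 1) f = A G n (lap G f + (2 : ℤ) • f) := by
  rw [A, A, ← LinearMap.add_apply, ← map_add, PZ_rec, mul_comm, map_mul, Module.End.mul_apply, A]
  congr 1
  rw [map_add, aeval_X, LinearMap.add_apply]
  congr 1
  have : (2 : ℤ[X]) = C 2 := by simp
  rw [this, aeval_C, Algebra.algebraMap_eq_smul_one]
  rfl

/-- the value of the kernel of `PZ n (L)` -/
noncomputable def KZ (n : ℤ) (x z : V) : ℤ := A G n (Finsupp.single x 1) z

theorem KZ_eq (n : ℤ) (x z : V) : KZ G n x z = n.sign * K G (P n.natAbs) x z := by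
  rw [KZ, A, PZ, map_smul, LinearMap.smul_apply, Finsupp.smul_apply, smul_eq_mul, K]

section kernel
variable (hG : G.Connected) (ht : ∀ x y : V, ∃ φ : G ≃g G, φ x = y)
include ht

theorem K_diag (p : ℤ[X]) (x y : V) : K G p x x = K G p y y := by
  obtain ⟨φ, rfl⟩ := ht x y
  rw [K_map]

theorem KP_lt {k : ℕ} (hk : 0 < k) {x z : V} (h : x ≠ z) :
    |K G (P k) x z| < K G (P k) x x := by
  have := K_off G (P_facts k).1 (K_diag G ht _) h
  rw [P_coeff_zero] at this
  have : (0 : ℤ) < k := by exact_mod_cast hk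
  linarith

theorem KP_le (k : ℕ) (x z : V) : |K G (P k) x z| ≤ K G (P k) x x := by
  rcases Nat.eq_zero_or_pos k with rfl | hk
  · rw [K_zero, K_zero, abs_zero]
  · by_cases h : x = z
    · subst h
      have := K_diag_ge G (P_facts k).1 x
      rw [P_coeff_zero] at this
      rw [abs_of_nonneg]
      have : (0 : ℤ) ≤ k := Nat.cast_nonneg _
      linarith
    · exact (KP_lt G ht hk h).le

omit ht in
theorem KP_mono {j k : ℕ} (h : j < k) (x : V) : K G (P j) x x < K G (P k) x x := by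
  have h1 := K_diag_ge G (P_diff h.le).1 x
  rw [(P_diff h.le).2] at h1
  have h2 : K G (P k - P j) x x = K G (P k) x x - K G (P j) x x := by
    rw [K, map_sub]; rfl
  rw [h2] at h1
  have : (j : ℤ) < k := by exact_mod_cast h
  linarith

omit ht in
theorem KP_pos {k : ℕ} (h : 0 < k) (x : V) : 0 < K G (P k) x x := by
  have := KP_mono G h x
  rwa [K_zero] at this

theorem D_self {n n' : ℤ} (hn : n'.natAbs ≤ n.natAbs) (hne : n ≠ n') (x x' : V) :
    KZ G n x x - KZ G n' x' x ≠ 0 := by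
  rcases Nat.lt_or_ge n'.natAbs n.natAbs with h | h
  · have h1 : |KZ G n x x| = K G (P n.natAbs) x x := by
      rw [KZ_eq, abs_mul, abs_of_pos (KP_pos G (by omega) x), Int.abs_eq_natAbs, Int.natAbs_sign_of_ne_zero (by omega)]
      simp
    have h2 : |KZ G n' x' x| ≤ K G (P n'.natAbs) x x := by
      rw [KZ_eq, abs_mul]
      have h3 := KP_le G ht n'.natAbs x' x
      rw [K_diag G ht _ x' x] at h3
      have h4 : |n'.sign| ≤ 1 := by
        rcases lt_trichotomy n' 0 with h5 | rfl | h5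
        · rw [Int.sign_eq_neg_one_of_neg h5]; simp
        · simp
        · rw [Int.sign_eq_one_of_pos h5]; simp
      calc |n'.sign| * |K G (P n'.natAbs) x' x| ≤ 1 * |K G (P n'.natAbs) x' x| :=
            mul_le_mul_of_nonneg_right h4 (abs_nonneg _)
        _ ≤ _ := by rw [one_mul]; exact h3
    have h3 := KP_mono G h x
    intro h4
    rw [sub_eq_zero] at h4
    rw [h4] at h1
    omega
  · have h1 : n' = -n := by omega
    have h2 : n ≠ 0 := by omega
    subst h1
    have h3 : KZ G (-n) x' x = - (n.sign * K G (P n.natAbs) x' x) := by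
      rw [KZ_eq, Int.natAbs_neg, Int.sign_neg]; ring
    rw [h3, KZ_eq, sub_neg_eq_add, ← mul_add]
    refine mul_ne_zero (by rwa [ne_eq, Int.sign_eq_zero_iff_zero]) ?_
    have hk : 0 < n.natAbs := by omega
    have h4 := KP_pos G hk x
    by_cases hx : x' = x
    · subst hx; omega
    · have h5 := KP_lt G ht hk hx
      rw [K_diag G ht _ x' x, abs_lt] at h5
      omega

include hG in
theorem D_far [Infinite V] {n n' : ℤ} (hn : n'.natAbs ≤ n.natAbs) (hne : n ≠ n') (x x' : V) :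
    ∃ z, G.dist x z + 1 = n.natAbs ∧ KZ G n x z - KZ G n' x' z ≠ 0 := by
  have hn0 : n ≠ 0 := by omega
  obtain ⟨z, hz, hz'⟩ := exists_far G hG ht x x' (n.natAbs - 1)
  have hzn : G.dist x z + 1 = n.natAbs := by omega
  refine ⟨z, hzn, ?_⟩
  have h1 := (K_P G hG x n.natAbs).2 z hzn
  have hs : n.sign ≠ 0 := by rwa [ne_eq, Int.sign_eq_zero_iff_zero]
  rcases Nat.lt_or_ge n'.natAbs n.natAbs with h | h
  · have h2 := (K_P G hG x' n'.natAbs).1 z (by omega)
    rw [KZ_eq, KZ_eq, h2, mul_zero, sub_zero]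
    refine mul_ne_zero hs ?_
    intro h3
    rw [h3, mul_zero] at h1
    exact lt_irrefl _ h1
  · have h1' : n' = -n := by omega
    subst h1'
    have h3 : KZ G (-n) x' z = - (n.sign * K G (P n.natAbs) x' z) := by
      rw [KZ_eq, Int.natAbs_neg, Int.sign_neg]; ring
    rw [h3, KZ_eq, sub_neg_eq_add, ← mul_add]
    refine mul_ne_zero hs ?_
    have h4 : 0 ≤ (-1) ^ (n.natAbs + 1) * K G (P n.natAbs) x' z := by
      rcases Nat.lt_or_ge (G.dist x' z) n.natAbs with h5 | h5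
      · exact ((K_P G hG x' n.natAbs).2 z (by omega)).le
      · rw [(K_P G hG x' n.natAbs).1 z h5, mul_zero]
    intro h5
    have h6 : (-1) ^ (n.natAbs + 1) * K G (P n.natAbs) x z + (-1) ^ (n.natAbs + 1) * K G (P n.natAbs) x' z = 0 := by
      rw [← mul_add, h5, mul_zero]
    omega

theorem D_same {n : ℤ} (hn : n ≠ 0) {x x' : V} (hx : x ≠ x') : KZ G n x x - KZ G n x' x ≠ 0 := by
  rw [KZ_eq, KZ_eq, ← mul_sub]
  refine mul_ne_zero (by rwa [ne_eq, Int.sign_eq_zero_iff_zero]) ?_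
  have h5 := KP_lt G ht (k := n.natAbs) (by omega) (Ne.symm hx)
  rw [K_diag G ht _ x' x, abs_lt] at h5
  omega

omit ht in
theorem KZ_self_ne {n : ℤ} (hn : n ≠ 0) (x : V) : KZ G n x x ≠ 0 := by
  rw [KZ_eq]
  exact mul_ne_zero (by rwa [ne_eq, Int.sign_eq_zero_iff_zero])
    (KP_pos G (k := n.natAbs) (by omega) x).ne'

end kernel

/-- the linear form of the site `(x, n)` in the variables `inl x = f₁ x`, `inr x = f₀ x` -/
noncomputable def cf (s : V × ℤ) : (V ⊕ V) →₀ ℤ :=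
  Finsupp.sumElim (A G s.2 (Finsupp.single s.1 1)) (- A G (s.2 - 1) (Finsupp.single s.1 1))

theorem cf_inl (x : V) (n : ℤ) (z : V) : cf G (x, n) (Sum.inl z) = KZ G n x z := by
  rw [cf, Finsupp.sumElim_inl]; rfl

theorem cf_inr (x : V) (n : ℤ) (z : V) : cf G (x, n) (Sum.inr z) = - KZ G (n - 1) x z := by
  rw [cf, Finsupp.sumElim_inr]; rfl

theorem cf_zero (x : V) : cf G (x, 0) = Finsupp.single (Sum.inr x) 1 := by
  classical
  ext z
  rcases z with z | z
  · rw [cf_inl, KZ, A_zero, Finsupp.single_apply, if_neg (by simp)]; rfl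
  · rw [cf_inr, KZ]
    have : (0 : ℤ) - 1 = - 1 := by norm_num
    rw [this, A_neg, A_one, Finsupp.single_apply, Finsupp.neg_apply, neg_neg, Finsupp.single_apply]
    simp

theorem ev_sumElim (f g : V →₀ ℤ) (σ : V ⊕ V → ℤ) :
    ev (Finsupp.sumElim f g) σ = ev f (fun x => σ (Sum.inl x)) + ev g (fun x => σ (Sum.inr x)) := by
  rw [Finsupp.sumElim_eq_add, ev_add, ev, ev, Finsupp.linearCombination_mapDomain,
    Finsupp.linearCombination_mapDomain]
  rfl

theorem cf_sub (x x' : V) (n : ℤ) : cf G (x, n) - cf G (x', n) =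
    Finsupp.sumElim (A G n (Finsupp.single x 1 - Finsupp.single x' 1))
      (- A G (n - 1) (Finsupp.single x 1 - Finsupp.single x' 1)) := by
  ext z
  rcases z with z | z
  · rw [Finsupp.sub_apply, cf_inl, cf_inl, Finsupp.sumElim_inl, map_sub, Finsupp.sub_apply]; rfl
  · rw [Finsupp.sub_apply, cf_inr, cf_inr, Finsupp.sumElim_inr, map_sub, Finsupp.neg_apply,
      Finsupp.sub_apply]
    simp only [KZ]; ring

theorem cf_harm (σ : V ⊕ V → ℤ) (x : V) (n : ℤ) :
    ev (cf G (x, n + 1)) σ + ev (cf G (x, n - 1)) σ =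
      (G.degree x + 2) * ev (cf G (x, n)) σ - ∑ y ∈ G.neighborFinset x, ev (cf G (y, n)) σ := by
  have key : ∀ (φ : V → ℤ) (n : ℤ), ev (A G (n + 1) (Finsupp.single x 1)) φ +
      ev (A G (n - 1) (Finsupp.single x 1)) φ = (G.degree x + 2) * ev (A G n (Finsupp.single x 1)) φ -
        ∑ y ∈ G.neighborFinset x, ev (A G n (Finsupp.single y 1)) φ := by
    intro φ n
    rw [← ev_add, A_rec, lap_single, map_add, map_sub, map_sum, map_smul, map_smul, ev_add, ev_sub,
      ev_smul, ev_smul, ev_sum]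
    ring
  have h1 := key (fun x => σ (Sum.inl x)) n
  have h2 := key (fun x => σ (Sum.inr x)) (n - 1)
  have hneg : ∀ f : V →₀ ℤ, ∀ φ : V → ℤ, ev (-f) φ = - ev f φ := fun f φ => by
    rw [← neg_one_zsmul, ev_smul]; ring
  have e1 : n - 1 + 1 = n := by ring
  rw [e1] at h2
  have h3 : ∀ y m, ev (cf G (y, m)) σ = ev (A G m (Finsupp.single y 1)) (fun x => σ (Sum.inl x)) -
      ev (A G (m - 1) (Finsupp.single y 1)) (fun x => σ (Sum.inr x)) := by
    intro y m
    rw [cf, ev_sumElim, hneg]; ring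
  simp only [h3, Finset.sum_sub_distrib]
  have e2 : n + 1 - 1 = n := by ring
  rw [e2]
  linarith

end Pool.Agent.R736.HL
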