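import Mathlib

set_option autoImplicit false

/-! The Laplacian of a locally finite graph on finitely supported integer functions. -/

open Polynomial

namespace Pool.Agent.R736.HL

variable {V : Type*} (G : SimpleGraph V) [G.LocallyFinite]

/-- the Laplacian -/
noncomputable def lap : (V →₀ ℤ) →ₗ[ℤ] (V →₀ ℤ) :=
  Finsupp.linearCombination ℤ (fun x => (G.degree x : ℤ) • Finsupp.single x (1 : ℤ) -
    ∑ y ∈ G.neighborFinset x, Finsupp.single y (1 : ℤ))

theorem lap_single (x : V) : lap G (Finsupp.single x 1) =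
    (G.degree x : ℤ) • Finsupp.single x (1 : ℤ) - ∑ y ∈ G.neighborFinset x, Finsupp.single y (1 : ℤ) := by
  rw [lap, Finsupp.linearCombination_single, one_smul]

theorem lap_apply (f : V →₀ ℤ) (y : V) :
    lap G f y = G.degree y * f y - ∑ x ∈ G.neighborFinset y, f x := by
  classical
  induction f using Finsupp.induction_linear with
  | zero => simp
  | add f g hf hg =>
    rw [map_add, Finsupp.add_apply, hf, hg, Finsupp.add_apply]
    simp only [Finsupp.add_apply, Finset.sum_add_distrib]
    ring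
  | single x a =>
    have h1 : Finsupp.single x a = a • Finsupp.single x (1 : ℤ) := by simp
    rw [h1, map_smul, Finsupp.smul_apply, lap_single, Finsupp.sub_apply, Finsupp.smul_apply,
      Finsupp.finsetSum_apply]
    simp only [Finsupp.smul_apply, smul_eq_mul, Finsupp.single_apply]
    have h2 : ∑ z ∈ G.neighborFinset x, (if z = y then (1 : ℤ) else 0) =
        if y ∈ G.neighborFinset x then 1 else 0 := by
      rw [Finset.sum_ite_eq' (G.neighborFinset x) y]
    have h3 : ∑ z ∈ G.neighborFinset y, a * (if x = z then (1 : ℤ) else 0) =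
        a * if x ∈ G.neighborFinset y then 1 else 0 := by
      rw [← Finset.mul_sum, Finset.sum_ite_eq (G.neighborFinset y) x]
    rw [h2, h3]
    have h4 : y ∈ G.neighborFinset x ↔ x ∈ G.neighborFinset y := by
      rw [SimpleGraph.mem_neighborFinset, SimpleGraph.mem_neighborFinset, G.adj_comm]
    by_cases hxy : x = y
    · subst hxy; simp; ring
    · by_cases h5 : x ∈ G.neighborFinset y
      · rw [if_neg hxy, if_pos h5, if_pos (h4.2 h5)]; ring
      · rw [if_neg hxy, if_neg h5, if_neg (fun h => h5 (h4.1 h))]; ring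

/-- evaluation of the linear form with coefficients `f` at the function `φ` -/
noncomputable def ev {U : Type*} (f : U →₀ ℤ) (φ : U → ℤ) : ℤ := Finsupp.linearCombination ℤ φ f

section ev
variable {U : Type*}

theorem ev_add (f g : U →₀ ℤ) (φ : U → ℤ) : ev (f + g) φ = ev f φ + ev g φ := map_add _ _ _
theorem ev_sub (f g : U →₀ ℤ) (φ : U → ℤ) : ev (f - g) φ = ev f φ - ev g φ := map_sub _ _ _
theorem ev_smul (a : ℤ) (f : U →₀ ℤ) (φ : U → ℤ) : ev (a • f) φ = a * ev f φ := by
  rw [ev, map_smul, smul_eq_mul, ev]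
theorem ev_sum {ι : Type*} (s : Finset ι) (f : ι → U →₀ ℤ) (φ : U → ℤ) :
    ev (∑ i ∈ s, f i) φ = ∑ i ∈ s, ev (f i) φ := map_sum _ _ _
theorem ev_zero (φ : U → ℤ) : ev (0 : U →₀ ℤ) φ = 0 := map_zero _
theorem ev_single (x : U) (φ : U → ℤ) : ev (Finsupp.single x 1) φ = φ x := by
  rw [ev, Finsupp.linearCombination_single, one_smul]
theorem ev_eq (f : U →₀ ℤ) (φ : U → ℤ) : ev f φ = ∑ x ∈ f.support, f x * φ x := by
  rw [ev, Finsupp.linearCombination_apply, Finsupp.sum]; rfl
theorem ev_eq_of_subset (f : U →₀ ℤ) (φ : U → ℤ) {s : Finset U} (hs : f.support ⊆ s) :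
    ev f φ = ∑ x ∈ s, f x * φ x := by
  rw [ev_eq]
  exact Finset.sum_subset hs fun x _ hx => by rw [Finsupp.notMem_support_iff.1 hx, zero_mul]
theorem ev_comm (f g : U →₀ ℤ) : ev f g = ev g f := by
  classical
  rw [ev_eq_of_subset f g (s := f.support ∪ g.support) Finset.subset_union_left,
    ev_eq_of_subset g f (s := f.support ∪ g.support) Finset.subset_union_right]
  exact Finset.sum_congr rfl fun x _ => mul_comm _ _
theorem ev_single_right (f : U →₀ ℤ) (x : U) : ev f (Finsupp.single x (1 : ℤ)) = f x := by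
  rw [ev_comm, ev_single]
theorem ev_self_nonneg (f : U →₀ ℤ) : 0 ≤ ev f f := by
  rw [ev_eq]
  exact Finset.sum_nonneg fun x _ => mul_self_nonneg _
theorem ev_congr {f : U →₀ ℤ} {φ ψ : U → ℤ} (h : ∀ x ∈ f.support, φ x = ψ x) : ev f φ = ev f ψ := by
  rw [ev_eq, ev_eq]
  exact Finset.sum_congr rfl fun x hx => by rw [h x hx]
theorem ev_update [DecidableEq U] (f : U →₀ ℤ) (φ : U → ℤ) (v : U) (t : ℤ) :
    ev f (Function.update φ v t) = ev f φ + f v * (t - φ v) := by
  rw [ev_eq_of_subset f _ (s := insert v f.support) (Finset.subset_insert _ _),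
    ev_eq_of_subset f φ (s := insert v f.support) (Finset.subset_insert _ _), ← sub_eq_iff_eq_add',
    ← Finset.sum_sub_distrib, Finset.sum_eq_single v]
  · rw [Function.update_self]; ring
  · intro b _ hb
    rw [Function.update_of_ne hb]; ring
  · intro h
    exact absurd (Finset.mem_insert_self _ _) h
end ev

theorem lap_adj (f g : V →₀ ℤ) : ev (lap G f) g = ev f (lap G g) := by
  classical
  have key : ∀ x (g : V →₀ ℤ), ev (lap G (Finsupp.single x 1)) g = lap G g x := by
    intro x g
    rw [lap_single, ev_sub, ev_smul, ev_single, ev_sum, lap_apply]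
    simp only [ev_single]
  induction f using Finsupp.induction_linear with
  | zero => rw [map_zero, ev_zero, ev_zero]
  | add f f' hf hf' => rw [map_add, ev_add, hf, hf', ev_add]
  | single x a =>
    have h1 : Finsupp.single x a = a • Finsupp.single x (1 : ℤ) := by simp
    rw [h1, map_smul, ev_smul, ev_smul, key, ev_single]

theorem lap_nonneg (f : V →₀ ℤ) : 0 ≤ ev (lap G f) f := by
  classical
  have h0 : ev (lap G f) f = ∑ x ∈ f.support, f x * (G.degree x * f x - ∑ y ∈ G.neighborFinset x, f y) := by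
    rw [lap_adj, ev_eq]
    simp only [lap_apply]
  have h1 : ∀ x, (G.degree x : ℤ) * (f x * f x) = ∑ y ∈ G.neighborFinset x, f x * f x := by
    intro x
    rw [Finset.sum_const, SimpleGraph.card_neighborFinset_eq_degree, nsmul_eq_mul]
  have h2 : 2 * ev (lap G f) f = ∑ x ∈ f.support, ∑ y ∈ G.neighborFinset x,
      (2 * (f x * f x) - 2 * (f x * f y)) := by
    rw [h0, Finset.mul_sum]
    refine Finset.sum_congr rfl fun x _ => ?_
    have e1 : ∑ y ∈ G.neighborFinset x, 2 * (f x * f x) = 2 * ((G.degree x : ℤ) * (f x * f x)) := by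
      rw [h1, Finset.mul_sum]
    have e2 : ∑ y ∈ G.neighborFinset x, 2 * (f x * f y) =
        2 * (f x * ∑ y ∈ G.neighborFinset x, f y) := by
      rw [Finset.mul_sum, Finset.mul_sum]
    rw [Finset.sum_sub_distrib, e1, e2]
    ring
  have h3 : ∑ x ∈ f.support, ∑ y ∈ G.neighborFinset x, f y * f y ≤
      ∑ x ∈ f.support, ∑ y ∈ G.neighborFinset x, f x * f x := by
    have h4 : ∑ x ∈ f.support, ∑ y ∈ G.neighborFinset x, f y * f y =
        ∑ x ∈ f.support, ∑ y ∈ (G.neighborFinset x).filter (· ∈ f.support), f y * f y := by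
      refine Finset.sum_congr rfl fun x _ => ?_
      rw [Finset.sum_filter]
      refine Finset.sum_congr rfl fun y _ => ?_
      split_ifs with h
      · rfl
      · rw [Finsupp.notMem_support_iff.1 h, zero_mul]
    rw [h4, Finset.sum_comm' (s' := fun y => (G.neighborFinset y).filter (· ∈ f.support))
      (t' := f.support)]
    · refine Finset.sum_le_sum fun y _ => ?_
      exact Finset.sum_le_sum_of_subset_of_nonneg (Finset.filter_subset _ _)
        fun _ _ _ => mul_self_nonneg _
    · intro x y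
      simp only [Finset.mem_filter, SimpleGraph.mem_neighborFinset]
      constructor
      · rintro ⟨h5, h6, h7⟩
        exact ⟨⟨h6.symm, h5⟩, h7⟩
      · rintro ⟨⟨h6, h5⟩, h7⟩
        exact ⟨h5, h6.symm, h7⟩
  have h5 : ∑ x ∈ f.support, ∑ y ∈ G.neighborFinset x, (f x * f x - f y * f y) ≤
      ∑ x ∈ f.support, ∑ y ∈ G.neighborFinset x, (2 * (f x * f x) - 2 * (f x * f y)) := by
    refine Finset.sum_le_sum fun x _ => Finset.sum_le_sum fun y _ => ?_
    nlinarith [sq_nonneg (f x - f y)]
  simp only [Finset.sum_sub_distrib] at h5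
  simp only [Finset.sum_sub_distrib] at h2
  linarith

/-! ### polynomials in the Laplacian -/

theorem pow_adj (k : ℕ) (f g : V →₀ ℤ) :
    ev ((lap G ^ k) f) g = ev f ((lap G ^ k) g) := by
  induction k generalizing f g with
  | zero => simp
  | succ k ih =>
    rw [pow_succ, Module.End.mul_apply, ih, lap_adj, ← Module.End.mul_apply, ← pow_succ', pow_succ,
      Module.End.mul_apply]

theorem pow_nonneg' (k : ℕ) (f : V →₀ ℤ) : 0 ≤ ev ((lap G ^ k) f) f := by
  rcases Nat.even_or_odd' k with ⟨j, rfl | rfl⟩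
  · have : (lap G ^ (2 * j)) f = (lap G ^ j) ((lap G ^ j) f) := by
      rw [← Module.End.mul_apply, ← pow_add, two_mul]
    rw [this, pow_adj]
    exact ev_self_nonneg _
  · have : (lap G ^ (2 * j + 1)) f = (lap G ^ j) (lap G ((lap G ^ j) f)) := by
      rw [← Module.End.mul_apply, ← Module.End.mul_apply, ← pow_succ, ← pow_add]
      congr 2
      omega
    rw [this, pow_adj]
    exact lap_nonneg G _

theorem aeval_apply_eq (p : ℤ[X]) (f : V →₀ ℤ) :
    aeval (lap G) p f = ∑ i ∈ Finset.range (p.natDegree + 1), p.coeff i • (lap G ^ i) f := by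
  rw [aeval_eq_sum_range, LinearMap.sum_apply]
  rfl

theorem aeval_adj (p : ℤ[X]) (f g : V →₀ ℤ) :
    ev (aeval (lap G) p f) g = ev f (aeval (lap G) p g) := by
  rw [aeval_apply_eq, ev_sum, ev_comm f, aeval_apply_eq, ev_sum]
  refine Finset.sum_congr rfl fun i _ => ?_
  rw [ev_smul, ev_smul, pow_adj, ev_comm]

/-- all coefficients are nonnegative -/
def NN (p : ℤ[X]) : Prop := ∀ i, 0 ≤ p.coeff i

theorem NN.add {p q : ℤ[X]} (hp : NN p) (hq : NN q) : NN (p + q) := fun i => by
  rw [coeff_add]; exact add_nonneg (hp i) (hq i)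

theorem NN.X_mul {p : ℤ[X]} (hp : NN p) : NN (X * p) := fun i => by
  cases i with
  | zero => rw [mul_coeff_zero, coeff_X_zero, zero_mul]
  | succ i => rw [coeff_X_mul]; exact hp i

theorem form_ge {p : ℤ[X]} (hp : NN p) (f : V →₀ ℤ) :
    p.coeff 0 * ev f f ≤ ev (aeval (lap G) p f) f := by
  rw [aeval_apply_eq, ev_sum, Finset.sum_range_succ']
  have h1 : ev (p.coeff 0 • (lap G ^ 0) f) f = p.coeff 0 * ev f f := by
    rw [ev_smul, pow_zero, Module.End.one_apply]
  rw [h1]
  have h2 : 0 ≤ ∑ k ∈ Finset.range p.natDegree, ev (p.coeff (k + 1) • (lap G ^ (k + 1)) f) f := by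
    refine Finset.sum_nonneg fun k _ => ?_
    rw [ev_smul]
    exact mul_nonneg (hp _) (pow_nonneg' G _ f)
  linarith

/-- the kernel of `p(L)` -/
noncomputable def K (p : ℤ[X]) (x y : V) : ℤ := aeval (lap G) p (Finsupp.single x 1) y

theorem K_symm (p : ℤ[X]) (x y : V) : K G p x y = K G p y x := by
  rw [K, K, ← ev_single_right, aeval_adj, ev_single]

theorem lap_map (φ : G ≃g G) (f : V →₀ ℤ) :
    lap G (Finsupp.mapDomain φ f) = Finsupp.mapDomain φ (lap G f) := by
  classical
  induction f using Finsupp.induction_linear with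
  | zero => simp
  | add f g hf hg => rw [Finsupp.mapDomain_add, map_add, hf, hg, map_add, Finsupp.mapDomain_add]
  | single x a =>
    have h1 : Finsupp.single x a = a • Finsupp.single x (1 : ℤ) := by simp
    rw [h1, Finsupp.mapDomain_smul, map_smul, map_smul, Finsupp.mapDomain_smul]
    congr 1
    rw [Finsupp.mapDomain_single, lap_single, lap_single]
    have h2 : Finsupp.mapDomain φ ((G.degree x : ℤ) • Finsupp.single x (1 : ℤ) -
        ∑ y ∈ G.neighborFinset x, Finsupp.single y (1 : ℤ)) =
        (G.degree x : ℤ) • Finsupp.single (φ x) (1 : ℤ) -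
        ∑ y ∈ G.neighborFinset x, Finsupp.single (φ y) (1 : ℤ) := by
      have := map_sub (Finsupp.lmapDomain ℤ ℤ φ) ((G.degree x : ℤ) • Finsupp.single x (1 : ℤ))
        (∑ y ∈ G.neighborFinset x, Finsupp.single y (1 : ℤ))
      rw [map_smul, map_sum] at this
      simpa [Finsupp.lmapDomain_apply, Finsupp.mapDomain_single] using this
    rw [h2]
    have h3 : G.neighborFinset (φ x) = (G.neighborFinset x).map φ.toEquiv.toEmbedding := by
      ext y
      rw [SimpleGraph.mem_neighborFinset, Finset.mem_map]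
      constructor
      · intro h
        refine ⟨φ.symm y, ?_, by simp⟩
        rw [SimpleGraph.mem_neighborFinset]
        have := φ.symm.map_adj_iff.2 h
        simpa using this
      · rintro ⟨z, hz, rfl⟩
        rw [SimpleGraph.mem_neighborFinset] at hz
        exact φ.map_adj_iff.2 hz
    have h4 : G.degree (φ x) = G.degree x := by
      rw [← SimpleGraph.card_neighborFinset_eq_degree, h3, Finset.card_map,
        SimpleGraph.card_neighborFinset_eq_degree]
    rw [h4, h3, Finset.sum_map]
    rfl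

theorem aeval_map (φ : G ≃g G) (p : ℤ[X]) (f : V →₀ ℤ) :
    aeval (lap G) p (Finsupp.mapDomain φ f) = Finsupp.mapDomain φ (aeval (lap G) p f) := by
  have h1 : ∀ k (f : V →₀ ℤ), (lap G ^ k) (Finsupp.mapDomain φ f) =
      Finsupp.mapDomain φ ((lap G ^ k) f) := by
    intro k
    induction k with
    | zero => intro f; simp
    | succ k ih =>
      intro f
      rw [pow_succ, Module.End.mul_apply, lap_map, ih, Module.End.mul_apply]
  rw [aeval_apply_eq, aeval_apply_eq]
  have h2 := map_sum (Finsupp.lmapDomain ℤ ℤ φ)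
    (fun i => p.coeff i • (lap G ^ i) f) (Finset.range (p.natDegree + 1))
  rw [Finsupp.lmapDomain_apply] at h2
  rw [h2]
  refine Finset.sum_congr rfl fun i _ => ?_
  rw [h1, Finsupp.lmapDomain_apply, Finsupp.mapDomain_smul]

theorem K_map (φ : G ≃g G) (p : ℤ[X]) (x y : V) : K G p (φ x) (φ y) = K G p x y := by
  rw [K, K, ← Finsupp.mapDomain_single (f := φ), aeval_map]
  exact Finsupp.mapDomain_apply φ.injective _ _

theorem K_diag_ge {p : ℤ[X]} (hp : NN p) (x : V) : p.coeff 0 ≤ K G p x x := by
  have := form_ge G hp (Finsupp.single x 1)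
  rw [ev_single_right, ev_single_right, Finsupp.single_eq_same, mul_one] at this
  exact this

theorem K_off {p : ℤ[X]} (hp : NN p) (hd : ∀ x y, K G p x x = K G p y y) {x y : V} (hxy : x ≠ y) :
    |K G p x y| ≤ K G p x x - p.coeff 0 := by
  have hyx : y ≠ x := Ne.symm hxy
  have e1 : ∀ a b c d : V, ev (aeval (lap G) p (Finsupp.single a 1)) (Finsupp.single b (1 : ℤ)) =
      K G p a b := fun a b _ _ => ev_single_right _ _
  have hplus := form_ge G hp (Finsupp.single x 1 + Finsupp.single y 1)
  have hminus := form_ge G hp (Finsupp.single x 1 - Finsupp.single y 1)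
  have h1 : ev (Finsupp.single x 1 + Finsupp.single y (1 : ℤ)) (Finsupp.single x 1 + Finsupp.single y (1 : ℤ) : V →₀ ℤ) = 2 := by
    rw [ev_add, ev_single, ev_single]
    simp [Finsupp.single_apply, hxy, hyx]
  have h2 : ev (Finsupp.single x 1 - Finsupp.single y (1 : ℤ)) (Finsupp.single x 1 - Finsupp.single y (1 : ℤ) : V →₀ ℤ) = 2 := by
    rw [ev_sub, ev_single, ev_single]
    simp [Finsupp.single_apply, hxy, hyx]
  have h3 : ev (aeval (lap G) p (Finsupp.single x 1 + Finsupp.single y (1 : ℤ)))
      (Finsupp.single x 1 + Finsupp.single y (1 : ℤ) : V →₀ ℤ) = 2 * K G p x x + 2 * K G p x y := by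
    rw [map_add, ev_add, ev_comm _ (_ : V →₀ ℤ), ev_comm (aeval (lap G) p (Finsupp.single y 1)) (_ : V →₀ ℤ),
      ev_add, ev_add, ev_single, ev_single, ev_single, ev_single]
    have := K_symm G p x y
    have := hd x y
    simp only [K] at *
    linarith
  have h4 : ev (aeval (lap G) p (Finsupp.single x 1 - Finsupp.single y (1 : ℤ)))
      (Finsupp.single x 1 - Finsupp.single y (1 : ℤ) : V →₀ ℤ) = 2 * K G p x x - 2 * K G p x y := by
    rw [map_sub, ev_sub, ev_comm _ (_ : V →₀ ℤ), ev_comm (aeval (lap G) p (Finsupp.single y 1)) (_ : V →₀ ℤ),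
      ev_sub, ev_sub, ev_single, ev_single, ev_single, ev_single]
    have := K_symm G p x y
    have := hd x y
    simp only [K] at *
    linarith
  rw [h1, h3] at hplus
  rw [h2, h4] at hminus
  rw [abs_le]
  constructor <;> linarith

/-! ### the polynomials `P n` -/

/-- `P 0 = 0`, `P 1 = 1`, `P (n+2) = (X + 2) P (n+1) - P n` -/
noncomputable def P : ℕ → ℤ[X]
  | 0 => 0
  | 1 => 1
  | (n + 2) => (X + 2) * P (n + 1) - P n

theorem P_zero : P 0 = 0 := by rw [P]
theorem P_one : P 1 = 1 := by rw [P]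
theorem P_succ_succ (n : ℕ) : P (n + 2) = (X + 2) * P (n + 1) - P n := by rw [P]

theorem P_facts (n : ℕ) : NN (P n) ∧ NN (P (n + 1) - P n) ∧ (P (n + 1) - P n).coeff 0 = 1 := by
  induction n with
  | zero =>
    rw [P_zero, zero_add, P_one, sub_zero]
    refine ⟨fun i => by simp, fun i => ?_, by simp⟩
    rw [coeff_one]; split_ifs <;> norm_num
  | succ n ih =>
    obtain ⟨h1, h2, h3⟩ := ih
    have h4 : P (n + 1) = P n + (P (n + 1) - P n) := by ring
    have h5 : NN (P (n + 1)) := by rw [h4]; exact h1.add h2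
    have h6 : P (n + 1 + 1) - P (n + 1) = (P (n + 1) - P n) + X * P (n + 1) := by
      rw [P_succ_succ]; ring
    refine ⟨h5, ?_, ?_⟩
    · rw [h6]; exact h2.add h5.X_mul
    · rw [h6, coeff_add, h3, mul_coeff_zero, coeff_X_zero, zero_mul, add_zero]

theorem P_diff {j k : ℕ} (h : j ≤ k) : NN (P k - P j) ∧ (P k - P j).coeff 0 = (k : ℤ) - j := by
  induction k, h using Nat.le_induction with
  | base => simp [NN]
  | succ k _ ih =>
    have h1 : P (k + 1) - P j = (P k - P j) + (P (k + 1) - P k) := by ring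
    obtain ⟨_, h2, h3⟩ := P_facts k
    rw [h1]
    refine ⟨ih.1.add h2, ?_⟩
    rw [coeff_add, ih.2, h3]
    push_cast; ring

theorem P_coeff_zero (k : ℕ) : (P k).coeff 0 = k := by
  have := (P_diff (Nat.zero_le k)).2
  rw [P_zero, sub_zero] at this
  simpa using this

end Pool.Agent.R736.HL
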