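import Pool.Agent.R736.HL.Fam

set_option autoImplicit false

/-! The greedy steps for the sites of `G × ℤ`, and the main theorem. -/

open Polynomial

namespace Pool.Agent.R736.HL

variable {V : Type*} (G : SimpleGraph V) [G.LocallyFinite]

/-- the sites `(x, n)` with `x ∈ S1` and `|n| = dist x z + 1` for some `z ∈ S1` -/
def Phi (S1 : Finset V) : Set (V × ℤ) := {s | s.1 ∈ S1 ∧ ∃ z ∈ S1, G.dist s.1 z + 1 = s.2.natAbs}

omit [G.LocallyFinite] in
theorem Phi_finite (S1 : Finset V) : (Phi G S1).Finite := by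
  classical
  refine Set.Finite.subset ((S1 ×ˢ (S1 ×ˢ S1).biUnion fun p =>
    {((G.dist p.1 p.2 + 1 : ℕ) : ℤ), -((G.dist p.1 p.2 + 1 : ℕ) : ℤ)}).finite_toSet) ?_
  rintro ⟨x, n⟩ ⟨hx, z, hz, hn⟩
  rw [Finset.mem_coe, Finset.mem_product]
  refine ⟨hx, Finset.mem_biUnion.2 ⟨(x, z), Finset.mem_product.2 ⟨hx, hz⟩, ?_⟩⟩
  simp only [Finset.mem_insert, Finset.mem_singleton]
  simp only at hn
  omega

open Classical in
/-- the exceptional pairs with `n ≠ n'`, `n' ≠ 0` -/
def Psi (S1 : Finset V) : Set ((V × ℤ) × (V × ℤ)) :=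
  {p | p.1 ∈ Phi G S1 ∧ (p.2.1 ∈ S1 ∪ (A G p.1.2 (Finsupp.single p.1.1 1)).support) ∧
    p.2.2.natAbs ≤ p.1.2.natAbs}

theorem Psi_finite (S1 : Finset V) : (Psi G S1).Finite := by
  classical
  refine ((Phi_finite G S1).biUnion (t := fun s => ({s} : Set (V × ℤ)) ×ˢ
    (((S1 ∪ (A G s.2 (Finsupp.single s.1 1)).support) ×ˢ
      Finset.Icc (-(s.2.natAbs : ℤ)) s.2.natAbs : Finset (V × ℤ)) : Set (V × ℤ))) fun s _ => ?_).subset ?_
  · exact (Set.finite_singleton s).prod (Finset.finite_toSet _)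
  · rintro ⟨s, x', n'⟩ ⟨h1, h2, h3⟩
    refine Set.mem_biUnion (x := s) h1 ⟨rfl, ?_⟩
    rw [Finset.mem_coe, Finset.mem_product, Finset.mem_Icc]
    refine ⟨h2, ?_⟩
    simp only at h3 ⊢
    omega

section class_
variable (hG : G.Connected) (ht : ∀ x y : V, ∃ φ : G ≃g G, φ x = y)
include hG ht

theorem mem_Phi [Infinite V] {S1 : Finset V} {x x' : V} {n n' : ℤ} (hn : n'.natAbs ≤ n.natAbs) (hne : n ≠ n')
    (hS : Sup1 S1 (cf G (x, n) - cf G (x', n'))) : (x, n) ∈ Phi G S1 := by
  have e : ∀ z, (cf G (x, n) - cf G (x', n')) (Sum.inl z) = KZ G n x z - KZ G n' x' z := fun z => by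
    rw [Finsupp.sub_apply, cf_inl, cf_inl]
  refine ⟨hS x ?_, ?_⟩
  · rw [e]; exact D_self G ht hn hne x x'
  · obtain ⟨z, hz, hz'⟩ := D_far G hG ht hn hne x x'
    exact ⟨z, hS z (by rw [e]; exact hz'), hz⟩

theorem mem_Psi [Infinite V] {S1 : Finset V} {x x' : V} {n n' : ℤ} (hn : n'.natAbs ≤ n.natAbs) (hne : n ≠ n')
    (h0 : n' ≠ 0) (hS : Sup1 S1 (cf G (x, n) - cf G (x', n'))) : ((x, n), (x', n')) ∈ Psi G S1 := by
  classical
  have e : ∀ z, (cf G (x, n) - cf G (x', n')) (Sum.inl z) = KZ G n x z - KZ G n' x' z := fun z => by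
    rw [Finsupp.sub_apply, cf_inl, cf_inl]
  refine ⟨mem_Phi G hG ht hn hne hS, ?_, hn⟩
  rw [Finset.mem_union]
  by_cases h : x' ∈ S1
  · exact Or.inl h
  · right
    rw [Finsupp.mem_support_iff]
    have h1 : KZ G n x x' - KZ G n' x' x' = 0 := by
      by_contra h2
      exact h (hS x' (by rw [e]; exact h2))
    have h2 := KZ_self_ne G h0 x'
    show KZ G n x x' ≠ 0
    rw [sub_eq_zero.1 h1]
    exact h2

omit hG in
theorem mem_same {S1 : Finset V} {x x' : V} {n : ℤ} (hn : n ≠ 0) (hx : x ≠ x')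
    (hS : Sup1 S1 (cf G (x, n) - cf G (x', n))) : x ∈ S1 ∧ x' ∈ S1 := by
  have e : ∀ z, (cf G (x, n) - cf G (x', n)) (Sum.inl z) = KZ G n x z - KZ G n x' z := fun z => by
    rw [Finsupp.sub_apply, cf_inl, cf_inl]
  refine ⟨hS x (by rw [e]; exact D_same G ht hn hx), hS x' ?_⟩
  rw [e]
  have := D_same G ht hn (Ne.symm hx)
  intro h
  exact this (by linarith)

omit hG in
theorem cf_inj (s s' : V × ℤ) (hs : s ≠ s') : cf G s ≠ cf G s' := by
  classical
  obtain ⟨x, n⟩ := s
  obtain ⟨x', n'⟩ := s'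
  have key : ∀ (x x' : V) (n n' : ℤ), n'.natAbs ≤ n.natAbs → n ≠ n' → cf G (x, n) ≠ cf G (x', n') := by
    intro x x' n n' h h1 h2
    have h3 := D_self G ht h h1 x x'
    rw [← cf_inl, ← cf_inl, h2, sub_self] at h3
    exact h3 rfl
  by_cases hn : n = n'
  · subst hn
    have hx : x ≠ x' := fun h => hs (by rw [h])
    intro h2
    by_cases h0 : n = 0
    · subst h0
      rw [cf_zero, cf_zero] at h2
      have := Finsupp.single_left_injective (one_ne_zero (α := ℤ)) h2
      exact hx (Sum.inr_injective this)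
    · have h3 := D_same G ht h0 hx
      rw [← cf_inl, ← cf_inl, h2, sub_self] at h3
      exact h3 rfl
  · rcases le_total n'.natAbs n.natAbs with h | h
    · exact key x x' n n' h hn
    · exact (key x' x n' n h (Ne.symm hn)).symm

end class_

theorem inv_of_le {S : Finset (V ⊕ V)} {σ : V ⊕ V → ℤ}
    (h : ∀ s s' : V × ℤ, s ≠ s' → s'.2.natAbs ≤ s.2.natAbs → (cf G s - cf G s').support ⊆ S →
      ev (cf G s - cf G s') σ ≠ 0) : Inv (cf G) S σ := by
  intro s s' hs hsupp
  rcases le_total s'.2.natAbs s.2.natAbs with h1 | h1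
  · exact h s s' hs h1 hsupp
  · have h2 : cf G s - cf G s' = - (cf G s' - cf G s) := by abel
    rw [h2, Finsupp.support_neg] at hsupp
    have h3 := h s' s hs.symm h1 hsupp
    intro h4
    rw [ev_sub] at h3 h4
    exact h3 (by linarith)

open Classical in
theorem sup1_of {S : Finset (V ⊕ V)} {f : (V ⊕ V) →₀ ℤ} (h : f.support ⊆ S) : Sup1 S.toLeft f := by
  intro z hz
  rw [Finset.mem_toLeft]
  exact h (Finsupp.mem_support_iff.2 hz)

/-- the two families attached to a pair of distinct vertices -/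
noncomputable def famP (x x' : V) (m : ℕ) : (V ⊕ V) →₀ ℤ :=
  cf G (x, (m : ℤ) + 1) - cf G (x', (m : ℤ) + 1)

/-- the two families attached to a pair of distinct vertices -/
noncomputable def famN (x x' : V) (m : ℕ) : (V ⊕ V) →₀ ℤ :=
  cf G (x, -((m : ℤ) + 1)) - cf G (x', -((m : ℤ) + 1))

theorem tame_famP (hG : G.Connected) [Infinite V] (x x' : V) (S1 : Finset V) :
    Tame S1 (famP G x x') := by
  have : famP G x x' = fun m : ℕ => Finsupp.sumElim
      (A G ((m : ℤ) + 1) (Finsupp.single x 1 - Finsupp.single x' 1))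
      (- A G ((m : ℤ) + 1 - 1) (Finsupp.single x 1 - Finsupp.single x' 1)) := by
    funext m; rw [famP, cf_sub]
  rw [this]
  exact tame_pos G hG _ S1

theorem tame_famN (hG : G.Connected) [Infinite V] (x x' : V) (S1 : Finset V) :
    Tame S1 (famN G x x') := by
  have : famN G x x' = fun m : ℕ => Finsupp.sumElim
      (A G (-((m : ℤ) + 1)) (Finsupp.single x 1 - Finsupp.single x' 1))
      (- A G (-((m : ℤ) + 1) - 1) (Finsupp.single x 1 - Finsupp.single x' 1)) := by
    funext m; rw [famN, cf_sub]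
  rw [this]
  exact tame_neg G hG _ S1

theorem nonzero_cases {n : ℤ} (h : n ≠ 0) : (∃ m : ℕ, n = (m : ℤ) + 1) ∨ ∃ m : ℕ, n = -((m : ℤ) + 1) := by
  rcases lt_or_gt_of_ne h with h | h
  · right; exact ⟨(-n - 1).toNat, by omega⟩
  · left; exact ⟨(n - 1).toNat, by omega⟩

section steps
variable (hG : G.Connected) (ht : ∀ x y : V, ∃ φ : G ≃g G, φ x = y)
include hG ht

/-- the bad values for the variable `v` and the linear form `f` -/
def Bad (v : V ⊕ V) (σ : V ⊕ V → ℤ) (f : (V ⊕ V) →₀ ℤ) : Set ℕ :=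
  {t | f v ≠ 0 ∧ f v * (t : ℤ) + (ev f σ - f v * σ v) = 0}

omit hG ht in
theorem bad_finite (v : V ⊕ V) (σ : V ⊕ V → ℤ) (f : (V ⊕ V) →₀ ℤ) : (Bad v σ f).Finite := by
  refine Set.Subsingleton.finite ?_
  rintro t ⟨h1, h2⟩ t' ⟨_, h3⟩
  have : f v * (t : ℤ) = f v * (t' : ℤ) := by linarith
  exact_mod_cast mul_left_cancel₀ h1 this

open Classical in
theorem step1 [Infinite V] (S : Finset (V ⊕ V)) (σ : V ⊕ V → ℤ) (v : V ⊕ V) (hI : Inv (cf G) S σ)
    (hv : v ∉ S) : ∃ t, Inv (cf G) (insert v S) (Function.update σ v t) := by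
  set S' := insert v S with hS'
  set S1 := S'.toLeft with hS1
  -- exceptional finite set of pairs
  set E2 : Set ((V × ℤ) × (V × ℤ)) := ⋃ s ∈ Phi G S1,
    (fun x' => (s, (x', (0 : ℤ)))) '' (((S'.toRight ∪ (cf G s).support.toRight : Finset V)) : Set V) with hE2
  have hE2f : E2.Finite := (Phi_finite G S1).biUnion fun s _ => (Finset.finite_toSet _).image _
  set E3 : Set ((V × ℤ) × (V × ℤ)) := (fun p : V × V => ((p.1, (0 : ℤ)), (p.2, (0 : ℤ)))) ''
    ((S'.toRight ×ˢ S'.toRight : Finset (V × V)) : Set (V × V)) with hE3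
  have hE3f : E3.Finite := (Finset.finite_toSet _).image _
  have hsp : Sparse ((⋃ p ∈ Psi G S1 ∪ E2 ∪ E3, Bad v σ (cf G p.1 - cf G p.2)) ∪
      (⋃ p ∈ ((S1 ×ˢ S1 : Finset (V × V)) : Set (V × V)),
        ({t : ℕ | ∃ m, Sup1 S1 (famP G p.1 p.2 m) ∧ famP G p.1 p.2 m v ≠ 0 ∧
          famP G p.1 p.2 m v * (t : ℤ) + (ev (famP G p.1 p.2 m) σ - famP G p.1 p.2 m v * σ v) = 0} ∪
        {t : ℕ | ∃ m, Sup1 S1 (famN G p.1 p.2 m) ∧ famN G p.1 p.2 m v ≠ 0 ∧
          famN G p.1 p.2 m v * (t : ℤ) + (ev (famN G p.1 p.2 m) σ - famN G p.1 p.2 m v * σ v) = 0}))) := by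
    refine Sparse.union (sparse_biUnion (((Psi_finite G S1).union hE2f).union hE3f)
      fun p _ => sparse_finite (bad_finite v σ _)) (sparse_biUnion (Finset.finite_toSet _) fun p _ => ?_)
    exact ((tame_famP G hG p.1 p.2 S1).sparse v σ).union ((tame_famN G hG p.1 p.2 S1).sparse v σ)
  obtain ⟨t, ht'⟩ := exists_notMem hsp
  rw [Set.mem_union, not_or] at ht'
  obtain ⟨ht1, ht2⟩ := ht'
  refine ⟨t, inv_of_le G fun s s' hs hle hsupp => ?_⟩
  obtain ⟨x, n⟩ := s
  obtain ⟨x', n'⟩ := s'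
  set f := cf G (x, n) - cf G (x', n') with hf
  intro h0
  rw [ev_update] at h0
  by_cases hfv : f v = 0
  · rw [hfv, zero_mul, add_zero] at h0
    refine hI _ _ hs ?_ h0
    intro w hw
    have := hsupp hw
    rw [Finset.mem_insert] at this
    rcases this with rfl | h
    · exact absurd hfv (Finsupp.mem_support_iff.1 hw)
    · exact h
  have hbad : t ∈ Bad v σ f := ⟨hfv, by linarith⟩
  have hS1f : Sup1 S1 f := sup1_of hsupp
  by_cases hn : n = n'
  · subst hn
    have hx : x ≠ x' := fun h => hs (by rw [h])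
    by_cases hn0 : n = 0
    · subst hn0
      refine ht1 (Set.mem_biUnion (x := ((x, (0 : ℤ)), (x', (0 : ℤ)))) (Or.inr ⟨(x, x'), ?_, rfl⟩) hbad)
      rw [Finset.mem_coe, Finset.mem_product, Finset.mem_toRight, Finset.mem_toRight]
      rw [hf, cf_zero, cf_zero] at hsupp
      have hne : (Sum.inr x : V ⊕ V) ≠ Sum.inr x' := fun h => hx (Sum.inr_injective h)
      constructor
      · refine hsupp (Finsupp.mem_support_iff.2 ?_)
        rw [Finsupp.sub_apply, Finsupp.single_eq_same, Finsupp.single_eq_of_ne hne]; norm_num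
      · refine hsupp (Finsupp.mem_support_iff.2 ?_)
        rw [Finsupp.sub_apply, Finsupp.single_eq_same, Finsupp.single_eq_of_ne hne.symm]; norm_num
    · obtain ⟨hxS, hxS'⟩ := mem_same G ht hn0 hx hS1f
      refine ht2 (Set.mem_biUnion (x := (x, x')) (Finset.mem_coe.2 (Finset.mem_product.2 ⟨hxS, hxS'⟩)) ?_)
      rcases nonzero_cases hn0 with ⟨m, rfl⟩ | ⟨m, rfl⟩
      · exact Or.inl ⟨m, hS1f, hbad.1, hbad.2⟩
      · exact Or.inr ⟨m, hS1f, hbad.1, hbad.2⟩
  · by_cases hn0 : n' = 0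
    · subst hn0
      have hPhi := mem_Phi G hG ht hle hn hS1f
      refine ht1 (Set.mem_biUnion (x := ((x, n), (x', (0 : ℤ)))) (Or.inl (Or.inr ?_)) hbad)
      refine Set.mem_biUnion (x := (x, n)) hPhi ⟨x', ?_, rfl⟩
      rw [Finset.mem_coe, Finset.mem_union, Finset.mem_toRight, Finset.mem_toRight]
      by_cases h1 : cf G (x, n) (Sum.inr x') = 0
      · left
        refine hsupp (Finsupp.mem_support_iff.2 ?_)
        rw [hf, Finsupp.sub_apply, h1, cf_zero, Finsupp.single_eq_same]; norm_num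
      · right
        exact Finsupp.mem_support_iff.2 h1
    · exact ht1 (Set.mem_biUnion (x := ((x, n), (x', n'))) (Or.inl (Or.inl (mem_Psi G hG ht hle hn hn0 hS1f))) hbad)

open Classical in
theorem step2 [Infinite V] (S : Finset (V ⊕ V)) (σ : V ⊕ V → ℤ) (z : ℤ) (hI : Inv (cf G) S σ)
    (hz : ∀ s, (cf G s).support ⊆ S → ev (cf G s) σ ≠ z) :
    ∃ v ∉ S, ∃ s, (cf G s).support ⊆ insert v S ∧ Inv (cf G) (insert v S) (Function.update σ v z) ∧
      ev (cf G s) (Function.update σ v z) = z := by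
  set S1 := S.toLeft with hS1
  have hY : ((S : Set (V ⊕ V)) ∪ (⋃ p ∈ Psi G S1, ((cf G p.1 - cf G p.2).support : Set (V ⊕ V))) ∪
      (⋃ s ∈ Phi G S1, ((cf G s).support : Set (V ⊕ V))) ∪
      (⋃ p ∈ ((S1 ×ˢ S1 : Finset (V × V)) : Set (V × V)),
        ({w | ∃ m, Sup1 S1 (famP G p.1 p.2 m) ∧ famP G p.1 p.2 m w ≠ 0} ∪
         {w | ∃ m, Sup1 S1 (famN G p.1 p.2 m) ∧ famN G p.1 p.2 m w ≠ 0}))).Finite := by
    refine Set.Finite.union (Set.Finite.union (Set.Finite.union (Finset.finite_toSet _) ?_) ?_) ?_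
    · exact (Psi_finite G S1).biUnion fun p _ => Finset.finite_toSet _
    · exact (Phi_finite G S1).biUnion fun p _ => Finset.finite_toSet _
    · exact (Finset.finite_toSet _).biUnion fun p _ =>
        (tame_famP G hG p.1 p.2 S1).finite.union (tame_famN G hG p.1 p.2 S1).finite
  have hinf : (Set.range (Sum.inr : V → V ⊕ V)).Infinite := Set.infinite_range_of_injective Sum.inr_injective
  obtain ⟨v, ⟨y, hy⟩, hv⟩ := hinf.exists_notMem_finite hY
  simp only [Set.mem_union, not_or] at hv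
  obtain ⟨⟨⟨hvS, hvPsi⟩, hvPhi⟩, hvFam⟩ := hv
  have hvS' : v ∉ S := hvS
  have htl : (insert v S).toLeft = S1 := by
    ext a
    rw [hS1, Finset.mem_toLeft, Finset.mem_toLeft, Finset.mem_insert, ← hy]
    simp
  have hcfy : cf G (y, 0) = Finsupp.single v 1 := by rw [cf_zero, hy]
  refine ⟨v, hvS', (y, 0), ?_, ?_, ?_⟩
  · rw [hcfy]
    refine Finsupp.support_single_subset.trans ?_
    rw [Finset.singleton_subset_iff]; exact Finset.mem_insert_self _ _
  swap
  · rw [hcfy, ev_single, Function.update_self]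
  -- the invariant
  -- a determined site against `(y, 0)`
  have key : ∀ s : V × ℤ, cf G s v = 0 → (cf G s - cf G (y, 0)).support ⊆ insert v S →
      ev (cf G s - cf G (y, 0)) (Function.update σ v z) ≠ 0 := by
    intro s hsv hsupp
    have h1 : (cf G s).support ⊆ S := by
      intro w hw
      have hwv : w ≠ v := by
        rintro rfl
        exact Finsupp.mem_support_iff.1 hw hsv
      have h2 : w ∈ (cf G s - cf G (y, 0)).support := by
        rw [Finsupp.mem_support_iff, Finsupp.sub_apply, hcfy, Finsupp.single_eq_of_ne hwv, sub_zero]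
        exact Finsupp.mem_support_iff.1 hw
      rcases Finset.mem_insert.1 (hsupp h2) with h3 | h3
      · exact absurd h3 hwv
      · exact h3
    have h2 := hz s h1
    rw [ev_sub, hcfy, ev_single, Function.update_self, ev_update, hsv, zero_mul, add_zero]
    exact sub_ne_zero.2 h2
  refine inv_of_le G fun s s' hs hle hsupp => ?_
  obtain ⟨x, n⟩ := s
  obtain ⟨x', n'⟩ := s'
  by_cases hfv : (cf G (x, n) - cf G (x', n')) v = 0
  · rw [ev_update, hfv, zero_mul, add_zero]
    refine hI _ _ hs ?_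
    intro w hw
    have := hsupp hw
    rw [Finset.mem_insert] at this
    rcases this with rfl | h
    · exact absurd hfv (Finsupp.mem_support_iff.1 hw)
    · exact h
  have hS1f : Sup1 S1 (cf G (x, n) - cf G (x', n')) := by
    rw [← htl]; exact sup1_of hsupp
  by_cases hn : n = n'
  · subst hn
    have hx : x ≠ x' := fun h => hs (by rw [h])
    by_cases hn0 : n = 0
    · subst hn0
      have hor : x' = y ∨ x = y := by
        by_contra hcon
        push Not at hcon
        refine hfv ?_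
        rw [Finsupp.sub_apply, cf_zero, cf_zero, ← hy, Finsupp.single_eq_of_ne, Finsupp.single_eq_of_ne,
          sub_zero]
        · exact fun h => hcon.1 (Sum.inr_injective h).symm
        · exact fun h => hcon.2 (Sum.inr_injective h).symm
      rcases hor with rfl | rfl
      · refine key (x, 0) ?_ hsupp
        rw [cf_zero, ← hy]
        exact Finsupp.single_eq_of_ne fun h => hx (Sum.inr_injective h).symm
      · have h1 : cf G (x, 0) - cf G (x', 0) = - (cf G (x', 0) - cf G (x, 0)) := by abel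
        rw [h1, Finsupp.support_neg] at hsupp
        have h2 := key (x', 0) (by
          rw [cf_zero, ← hy]
          exact Finsupp.single_eq_of_ne fun h => hx (Sum.inr_injective h)) hsupp
        intro h3
        refine h2 ?_
        rw [ev_sub] at h3 ⊢
        linarith
    · exfalso
      obtain ⟨hxS, hxS'⟩ := mem_same G ht hn0 hx hS1f
      refine hvFam (Set.mem_biUnion (x := (x, x')) (Finset.mem_coe.2 (Finset.mem_product.2 ⟨hxS, hxS'⟩)) ?_)
      rcases nonzero_cases hn0 with ⟨m, rfl⟩ | ⟨m, rfl⟩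
      · exact Or.inl ⟨m, hS1f, hfv⟩
      · exact Or.inr ⟨m, hS1f, hfv⟩
  · by_cases hn0 : n' = 0
    · subst hn0
      have hPhi := mem_Phi G hG ht hle hn hS1f
      have hcv : cf G (x, n) v = 0 := by
        by_contra h
        exact hvPhi (Set.mem_biUnion (x := (x, n)) hPhi (Finsupp.mem_support_iff.2 h))
      have hx'y : x' = y := by
        by_contra h
        refine hfv ?_
        rw [Finsupp.sub_apply, hcv, cf_zero, ← hy, Finsupp.single_eq_of_ne, sub_zero]
        exact fun h' => h (Sum.inr_injective h').symm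
      subst hx'y
      exact key (x, n) hcv hsupp
    · exfalso
      exact hvPsi (Set.mem_biUnion (x := ((x, n), (x', n'))) (mem_Psi G hG ht hle hn hn0 hS1f)
        (Finsupp.mem_support_iff.2 hfv))

end steps

theorem countable_of (hG : G.Connected) : Countable V := by
  obtain ⟨x⟩ := hG.nonempty
  have h : (Set.univ : Set V) = ⋃ n : ℕ, {y | G.dist x y ≤ n} := by
    ext y
    simp only [Set.mem_univ, Set.mem_iUnion, true_iff]
    exact ⟨G.dist x y, le_refl (G.dist x y)⟩
  rw [← Set.countable_univ_iff, h]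
  exact Set.countable_iUnion fun n => (finite_ball G hG x n).countable

theorem main [Infinite V] (hG : G.Connected) (ht : ∀ x y : V, ∃ φ : G ≃g G, φ x = y) :
    ∃ φ : V × ℤ → ℤ, Function.Bijective φ ∧ ∀ x n, φ (x, n + 1) + φ (x, n - 1) =
      (G.degree x + 2) * φ (x, n) - ∑ y ∈ G.neighborFinset x, φ (y, n) := by
  classical
  have := countable_of G hG
  obtain ⟨σ, hσ⟩ := greedy (cf G) (fun s s' h => cf_inj G ht s s' h) (step1 G hG ht) (step2 G hG ht)
  exact ⟨fun s => ev (cf G s) σ, hσ, fun x n => cf_harm G σ x n⟩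

end Pool.Agent.R736.HL
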