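import Mathlib

set_option autoImplicit false

/-! Sparse sets of natural numbers and finite sums of exponentials. -/

open Filter Topology

namespace Pool.Agent.R736.HL

/-- `T` is sparse: for every `K` the number of elements of `T` below `M` is at most `(C + M) / K`. -/
def Sparse (T : Set ℕ) : Prop := ∀ K : ℕ, ∃ C : ℕ, ∀ M : ℕ, K * (T ∩ Set.Iio M).ncard ≤ C + M

theorem Sparse.mono {T T' : Set ℕ} (h : Sparse T') (hT : T ⊆ T') : Sparse T := by
  intro K
  obtain ⟨C, hC⟩ := h K
  refine ⟨C, fun M => le_trans (Nat.mul_le_mul_left K ?_) (hC M)⟩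
  exact Set.ncard_le_ncard (Set.inter_subset_inter_left _ hT) ((Set.finite_Iio M).inter_of_right _)

theorem Sparse.union {T T' : Set ℕ} (h : Sparse T) (h' : Sparse T') : Sparse (T ∪ T') := by
  intro K
  obtain ⟨C, hC⟩ := h (2 * K)
  obtain ⟨C', hC'⟩ := h' (2 * K)
  refine ⟨C + C', fun M => ?_⟩
  have h1 : ((T ∪ T') ∩ Set.Iio M).ncard ≤ (T ∩ Set.Iio M).ncard + (T' ∩ Set.Iio M).ncard := by
    rw [Set.union_inter_distrib_right]
    exact Set.ncard_union_le _ _
  have h2 := hC M
  have h3 := hC' M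
  have h4 := Nat.mul_le_mul_left K h1
  nlinarith

theorem sparse_finite {T : Set ℕ} (h : T.Finite) : Sparse T := by
  intro K
  refine ⟨K * T.ncard, fun M => le_trans (Nat.mul_le_mul_left K ?_) (Nat.le_add_right _ _)⟩
  exact Set.ncard_le_ncard Set.inter_subset_left h

theorem sparse_biUnion {ι : Type*} {s : Set ι} (hs : s.Finite) {T : ι → Set ℕ}
    (h : ∀ i ∈ s, Sparse (T i)) : Sparse (⋃ i ∈ s, T i) := by
  induction s, hs using Set.Finite.induction_on with
  | empty => simpa using sparse_finite Set.finite_empty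
  | @insert a s _ _ ih =>
    rw [Set.biUnion_insert]
    exact (h a (Set.mem_insert _ _)).union (ih fun i hi => h i (Set.mem_insert_of_mem _ hi))

theorem exists_notMem {T : Set ℕ} (h : Sparse T) : ∃ t, t ∉ T := by
  by_contra hcon
  push Not at hcon
  have hT : T = Set.univ := Set.eq_univ_of_forall hcon
  obtain ⟨C, hC⟩ := h 2
  have h1 := hC (C + 1)
  rw [hT, Set.univ_inter] at h1
  have h2 : (Set.Iio (C + 1)).ncard = C + 1 := by
    rw [Set.ncard_eq_toFinset_card']
    simp
  rw [h2] at h1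
  omega

theorem sparse_of_growth {ρ : ℕ → ℝ} (h : ∀ K : ℕ, ∃ n0 : ℕ, ∀ n ≥ n0, (K : ℝ) * n ≤ |ρ n|) :
    Sparse {t : ℕ | ∃ n, (t : ℝ) = ρ n} := by
  intro K
  obtain ⟨n0, hn0⟩ := h K
  refine ⟨K * (n0 + 1), fun M => ?_⟩
  rcases Nat.eq_zero_or_pos K with rfl | hK
  · simp
  have h1 : ({t : ℕ | ∃ n, (t : ℝ) = ρ n} ∩ Set.Iio M).ncard ≤ n0 + (M / K + 1) := by
    classical
    have hsub : ({t : ℕ | ∃ n, (t : ℝ) = ρ n} ∩ Set.Iio M) ⊆
        ((Finset.range n0 ∪ Finset.range (M / K + 1)).image (fun n => ⌊ρ n⌋₊) : Finset ℕ) := by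
      rintro t ⟨⟨n, hn⟩, ht⟩
      rw [Finset.coe_image]
      refine ⟨n, ?_, ?_⟩
      · rw [Finset.mem_coe, Finset.mem_union, Finset.mem_range, Finset.mem_range]
        by_cases hlt : n < n0
        · exact Or.inl hlt
        · right
          have h2 := hn0 n (not_lt.1 hlt)
          rw [← hn, abs_of_nonneg (Nat.cast_nonneg t)] at h2
          have h3 : K * n ≤ t := by exact_mod_cast h2
          have h4 : t < M := ht
          have : n ≤ M / K := by
            rw [Nat.le_div_iff_mul_le hK]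
            nlinarith
          omega
      · change ⌊ρ n⌋₊ = t
        rw [← hn]
        exact Nat.floor_natCast t
    refine (Set.ncard_le_ncard hsub (Finset.finite_toSet _)).trans ?_
    rw [Set.ncard_coe_finset]
    refine Finset.card_image_le.trans ((Finset.card_union_le _ _).trans ?_)
    rw [Finset.card_range, Finset.card_range]
  have h2 : K * (M / K) ≤ M := Nat.mul_div_le M K
  calc K * ({t : ℕ | ∃ n, (t : ℝ) = ρ n} ∩ Set.Iio M).ncard ≤ K * (n0 + (M / K + 1)) :=
        Nat.mul_le_mul_left K h1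
    _ ≤ K * (n0 + 1) + M := by nlinarith

/-- Finite linear combinations of exponentials `n ↦ q ^ n`, `q > 0`. -/
def ExpSum (a : ℕ → ℝ) : Prop := ∃ c : ℝ →₀ ℝ, (∀ q ∈ c.support, 0 < q) ∧
  ∀ n, a n = ∑ q ∈ c.support, c q * q ^ n

theorem ExpSum.zero : ExpSum (fun _ => 0) := ⟨0, by simp, by simp⟩

theorem expSum_of {s : Finset ℝ} (hs : ∀ q ∈ s, 0 < q) (c : ℝ → ℝ) :
    ExpSum (fun n => ∑ q ∈ s, c q * q ^ n) := by
  classical
  refine ⟨Finsupp.onFinset s (fun q => if q ∈ s then c q else 0) (by intro q hq; by_contra h; simp [h] at hq), ?_, ?_⟩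
  · intro q hq
    exact hs q (Finsupp.support_onFinset_subset hq)
  · intro n
    have hsub : (Finsupp.onFinset s (fun q => if q ∈ s then c q else 0)
      (by intro q hq; by_contra h; simp [h] at hq)).support ⊆ s := Finsupp.support_onFinset_subset
    rw [Finset.sum_subset hsub]
    · refine Finset.sum_congr rfl fun q hq => ?_
      simp [hq]
    · intro q _ hq
      rw [Finsupp.notMem_support_iff.1 hq, zero_mul]

theorem ExpSum.add {a b : ℕ → ℝ} (ha : ExpSum a) (hb : ExpSum b) : ExpSum (fun n => a n + b n) := by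
  classical
  obtain ⟨c, hc, h1⟩ := ha
  obtain ⟨c', hc', h2⟩ := hb
  have h3 : (fun n => a n + b n) = fun n => ∑ q ∈ c.support ∪ c'.support, (c q + c' q) * q ^ n := by
    funext n
    rw [h1, h2]
    simp_rw [add_mul]
    rw [Finset.sum_add_distrib]
    congr 1
    · exact Finset.sum_subset Finset.subset_union_left fun q _ hq => by
        rw [Finsupp.notMem_support_iff.1 hq, zero_mul]
    · exact Finset.sum_subset Finset.subset_union_right fun q _ hq => by
        rw [Finsupp.notMem_support_iff.1 hq, zero_mul]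
  rw [h3]
  exact expSum_of (fun q hq => (Finset.mem_union.1 hq).elim (hc q) (hc' q)) _

theorem ExpSum.smul {a : ℕ → ℝ} (ha : ExpSum a) (r : ℝ) : ExpSum (fun n => r * a n) := by
  obtain ⟨c, hc, h1⟩ := ha
  have h3 : (fun n => r * a n) = fun n => ∑ q ∈ c.support, (r * c q) * q ^ n := by
    funext n
    rw [h1, Finset.mul_sum]
    simp_rw [mul_assoc]
  rw [h3]
  exact expSum_of hc _

theorem ExpSum.shift {a : ℕ → ℝ} (ha : ExpSum a) : ExpSum (fun n => a (n + 1)) := by
  obtain ⟨c, hc, h1⟩ := ha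
  have h3 : (fun n => a (n + 1)) = fun n => ∑ q ∈ c.support, (c q * q) * q ^ n := by
    funext n
    rw [h1]
    refine Finset.sum_congr rfl fun q _ => ?_
    ring
  rw [h3]
  exact expSum_of hc _

theorem ExpSum.sum {ι : Type*} {s : Finset ι} {a : ι → ℕ → ℝ} (h : ∀ i ∈ s, ExpSum (a i)) :
    ExpSum (fun n => ∑ i ∈ s, a i n) := by
  classical
  induction s using Finset.induction_on with
  | empty => simpa using ExpSum.zero
  | @insert i s hi ih =>
    simp_rw [Finset.sum_insert hi]
    exact (h i (Finset.mem_insert_self _ _)).add (ih fun j hj => h j (Finset.mem_insert_of_mem hj))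

theorem expSum_pow {q : ℝ} (hq : 0 < q) : ExpSum (fun n => q ^ n) := by
  have := expSum_of (s := {q}) (fun r hr => by rw [Finset.mem_singleton.1 hr]; exact hq) (fun _ => 1)
  simpa using this

theorem ExpSum.asymp {a : ℕ → ℝ} (ha : ExpSum a) :
    (∀ n, a n = 0) ∨ ∃ q > 0, ∃ b ≠ 0, Tendsto (fun n => a n / q ^ n) atTop (𝓝 b) := by
  obtain ⟨c, hc, h1⟩ := ha
  rcases c.support.eq_empty_or_nonempty with h0 | hne
  · left
    intro n
    rw [h1, h0, Finset.sum_empty]
  · right
    set q := c.support.max' hne with hq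
    have hqs : q ∈ c.support := Finset.max'_mem _ _
    refine ⟨q, hc q hqs, c q, Finsupp.mem_support_iff.1 hqs, ?_⟩
    have h2 : (fun n => a n / q ^ n) = fun n => ∑ r ∈ c.support, c r * (r / q) ^ n := by
      funext n
      rw [h1, Finset.sum_div]
      refine Finset.sum_congr rfl fun r _ => ?_
      rw [div_pow]; ring
    rw [h2]
    have h3 : c q = ∑ r ∈ c.support, if r = q then c q else 0 := by
      rw [Finset.sum_ite_eq' c.support q]
      simp [hqs]
    rw [h3]
    refine tendsto_finsetSum _ fun r hr => ?_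
    split_ifs with hrq
    · have : q / q = 1 := div_self (hc q hqs).ne'
      rw [hrq]
      simp [this]
    · have hlt : r < q := lt_of_le_of_ne (Finset.le_max' _ _ hr) hrq
      have h4 : r / q < 1 := (div_lt_one (hc q hqs)).2 hlt
      have h5 := tendsto_pow_atTop_nhds_zero_of_lt_one (div_pos (hc r hr) (hc q hqs)).le h4
      simpa using h5.const_mul (c r)

theorem sparse_ratio {a b : ℕ → ℝ} (ha : ExpSum a) (hb : ExpSum b) :
    Sparse {t : ℕ | ∃ n, a n ≠ 0 ∧ a n * t + b n = 0} := by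
  rcases ha.asymp with h0 | ⟨q1, hq1, A, hA, h1⟩
  · refine sparse_finite (Set.Finite.subset Set.finite_empty ?_)
    rintro t ⟨n, hn, _⟩
    exact absurd (h0 n) hn
  rcases hb.asymp with h0 | ⟨q2, hq2, B, hB, h2⟩
  · refine sparse_finite (Set.Finite.subset (Set.finite_singleton 0) ?_)
    rintro t ⟨n, hn, h3⟩
    rw [h0 n, add_zero] at h3
    have := (mul_eq_zero.1 h3).resolve_left hn
    exact_mod_cast this
  have hratio : Tendsto (fun n => (b n / q2 ^ n) / (a n / q1 ^ n)) atTop (𝓝 (B / A)) := h2.div h1 hA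
  have heq : ∀ n, (b n / a n) = ((b n / q2 ^ n) / (a n / q1 ^ n)) * (q2 / q1) ^ n := by
    intro n
    rw [div_pow]
    have := (pow_pos hq1 n).ne'
    have := (pow_pos hq2 n).ne'
    by_cases han : a n = 0
    · simp [han]
    · field_simp
  rcases le_or_gt q2 q1 with hle | hgt
  · -- bounded ratios
    have hbd : ∃ Cc : ℝ, ∀ n, |b n / a n| ≤ Cc := by
      obtain ⟨C1, hC1⟩ := hratio.bddAbove_range.imp fun _ h => h
      obtain ⟨C2, hC2⟩ := hratio.bddBelow_range.imp fun _ h => h
      refine ⟨max |C1| |C2|, fun n => ?_⟩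
      rw [heq, abs_mul]
      have h3 : |(b n / q2 ^ n) / (a n / q1 ^ n)| ≤ max |C1| |C2| := by
        have h4 := hC1 ⟨n, rfl⟩
        have h5 := hC2 ⟨n, rfl⟩
        simp only at h4 h5
        rw [abs_le]
        constructor
        · have := neg_abs_le C2
          have := le_max_right |C1| |C2|
          linarith
        · exact (h4.trans (le_abs_self C1)).trans (le_max_left _ _)
      have h6 : |(q2 / q1) ^ n| ≤ 1 := by
        rw [abs_of_nonneg (by positivity)]
        exact pow_le_one₀ (by positivity) ((div_le_one hq1).2 hle)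
      calc _ ≤ max |C1| |C2| * 1 := mul_le_mul h3 h6 (abs_nonneg _) ((abs_nonneg _).trans h3)
        _ = _ := mul_one _
    obtain ⟨Cc, hCc⟩ := hbd
    refine sparse_finite (Set.Finite.subset (Set.finite_Iic ⌊Cc⌋₊) ?_)
    rintro t ⟨n, hn, h3⟩
    have h4 : (t : ℝ) = -(b n / a n) := by
      field_simp
      linarith
    have h5 := hCc n
    rw [← abs_neg, ← h4, abs_of_nonneg (Nat.cast_nonneg t)] at h5
    exact Nat.le_floor h5
  · have hsub : {t : ℕ | ∃ n, a n ≠ 0 ∧ a n * t + b n = 0} ⊆ {t : ℕ | ∃ n, (t : ℝ) = -(b n / a n)} := by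
      rintro t ⟨n, hn, h3⟩
      refine ⟨n, ?_⟩
      field_simp
      linarith
    refine Sparse.mono (sparse_of_growth fun K => ?_) hsub
    have h3 : 1 < q2 / q1 := (one_lt_div hq1).2 hgt
    have h4 : Tendsto (fun n : ℕ => (n : ℝ) / (q2 / q1) ^ n) atTop (𝓝 0) := by
      simpa using tendsto_pow_const_div_const_pow_of_one_lt 1 h3
    have h5 : Tendsto (fun n => |(b n / q2 ^ n) / (a n / q1 ^ n)|) atTop (𝓝 |B / A|) := hratio.abs
    have h6 : 0 < |B / A| := abs_pos.2 (div_ne_zero hB hA)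
    have h7 : Tendsto (fun n : ℕ => (K : ℝ) * ((n : ℝ) / (q2 / q1) ^ n)) atTop (𝓝 0) := by
      simpa using h4.const_mul (K : ℝ)
    have h8 : ∀ᶠ n : ℕ in atTop, (K : ℝ) * ((n : ℝ) / (q2 / q1) ^ n) <
        |(b n / q2 ^ n) / (a n / q1 ^ n)| := h7.eventually_lt h5 h6
    obtain ⟨n0, hn0⟩ := eventually_atTop.1 h8
    refine ⟨n0, fun n hn => ?_⟩
    have h9 := hn0 n hn
    have h10 : (0 : ℝ) < (q2 / q1) ^ n := by positivity
    rw [abs_neg, heq, abs_mul, abs_of_pos h10]
    have h11 : (K : ℝ) * n = (K : ℝ) * ((n : ℝ) / (q2 / q1) ^ n) * (q2 / q1) ^ n := by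
      field_simp
    rw [h11]
    exact mul_le_mul_of_nonneg_right h9.le h10.le

end Pool.Agent.R736.HL
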