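import Pool.Agent.R736.HL.Fin

set_option autoImplicit false

/-! Spectral decomposition of the Laplacian restricted to a finite set; the values of `P m (L) u` are
exponential sums. -/

open Polynomial

namespace Pool.Agent.R736.HL

variable {V : Type*} (G : SimpleGraph V) [G.LocallyFinite]

open Classical in
/-- extension by zero -/
noncomputable def ext0 {W : Finset V} (h : W → ℝ) (v : V) : ℝ := if hv : v ∈ W then h ⟨v, hv⟩ else 0

theorem ext0_mem {W : Finset V} (h : W → ℝ) (w : W) : ext0 h w = h w := by
  rw [ext0, dif_pos w.2]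

theorem ext0_notMem {W : Finset V} (h : W → ℝ) {v : V} (hv : v ∉ W) : ext0 h v = 0 := by
  rw [ext0, dif_neg hv]

open Classical in
theorem sum_ext0 {W : Finset V} (h : W → ℝ) (w : V) :
    ∑ y : W, (if G.Adj w y then h y else 0) = ∑ y ∈ G.neighborFinset w, ext0 h y := by
  have h1 : ∑ y ∈ G.neighborFinset w, ext0 h y = ∑ y ∈ W, if G.Adj w y then ext0 h y else 0 := by
    rw [← Finset.sum_filter]
    have h2 : ∑ y ∈ G.neighborFinset w, ext0 h y =
        ∑ y ∈ (G.neighborFinset w).filter (· ∈ W), ext0 h y := by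
      rw [Finset.sum_filter]
      refine Finset.sum_congr rfl fun y _ => ?_
      split_ifs with hy
      · rfl
      · exact ext0_notMem h hy
    rw [h2]
    refine Finset.sum_congr ?_ fun _ _ => rfl
    ext y
    simp only [Finset.mem_filter, SimpleGraph.mem_neighborFinset]
    tauto
  rw [h1, ← Finset.sum_coe_sort W (fun y => if G.Adj w y then ext0 h y else 0)]
  refine Finset.sum_congr rfl fun y _ => ?_
  rw [ext0_mem]

open Classical in
/-- the Laplacian cut down to the finite set `W` -/
noncomputable def T (W : Finset V) : EuclideanSpace ℝ W →ₗ[ℝ] EuclideanSpace ℝ W where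
  toFun h := WithLp.toLp 2 fun w => G.degree w * h w - ∑ y : W, (if G.Adj w y then h y else 0)
  map_add' f g := by
    ext w
    simp only [PiLp.add_apply]
    have : ∑ y : W, (if G.Adj w y then f y + g y else 0) =
        ∑ y : W, (if G.Adj w y then f y else 0) + ∑ y : W, (if G.Adj w y then g y else 0) := by
      rw [← Finset.sum_add_distrib]
      refine Finset.sum_congr rfl fun y _ => ?_
      split_ifs <;> simp
    rw [this]; ring
  map_smul' r f := by
    ext w
    simp only [PiLp.smul_apply, smul_eq_mul, RingHom.id_apply]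
    have : ∑ y : W, (if G.Adj w y then r * f y else 0) = r * ∑ y : W, (if G.Adj w y then f y else 0) := by
      rw [Finset.mul_sum]
      refine Finset.sum_congr rfl fun y _ => ?_
      split_ifs <;> simp
    rw [this]; ring

open Classical in
theorem T_apply (W : Finset V) (h : EuclideanSpace ℝ W) (w : W) :
    T G W h w = G.degree w * h w - ∑ y : W, (if G.Adj w y then h y else 0) := rfl

theorem T_symm (W : Finset V) : (T G W).IsSymmetric := by
  classical
  intro f g
  rw [PiLp.inner_apply, PiLp.inner_apply]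
  simp only [T_apply, RCLike.inner_apply, conj_trivial, mul_sub, sub_mul, Finset.sum_sub_distrib]
  congr 1
  · exact Finset.sum_congr rfl fun w _ => by ring
  · simp only [Finset.mul_sum, Finset.sum_mul]
    rw [Finset.sum_comm]
    refine Finset.sum_congr rfl fun y _ => Finset.sum_congr rfl fun w _ => ?_
    rw [G.adj_comm]
    split_ifs <;> ring

theorem eig_pos (hG : G.Connected) [Infinite V] (W : Finset V) (h : EuclideanSpace ℝ W) (l : ℝ)
    (h0 : h ≠ 0) (hT : T G W h = l • h) : 0 < l := by
  classical
  by_contra hl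
  push Not at hl
  have hne : ∃ w : W, h w ≠ 0 := by
    by_contra hcon
    push Not at hcon
    exact h0 (by ext w; simpa using hcon w)
  obtain ⟨w1, hw1⟩ := hne
  obtain ⟨w0, _, hw0⟩ := Finset.exists_max_image Finset.univ (fun w : W => |h w|) ⟨w1, Finset.mem_univ _⟩
  set M := |h w0| with hM
  have hMpos : 0 < M := lt_of_lt_of_le (abs_pos.2 hw1) (hw0 w1 (Finset.mem_univ _))
  have hle : ∀ v, |ext0 h v| ≤ M := by
    intro v
    by_cases hv : v ∈ W
    · have := ext0_mem (h : W → ℝ) ⟨v, hv⟩
      simp only at this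
      rw [this]
      exact hw0 _ (Finset.mem_univ _)
    · rw [ext0_notMem _ hv, abs_zero]; exact hMpos.le
  have hstep : ∀ v, |ext0 h v| = M → ∀ y, G.Adj v y → |ext0 h y| = M := by
    intro v hv y hy
    have hvW : v ∈ W := by
      by_contra hvW
      rw [ext0_notMem _ hvW, abs_zero] at hv
      linarith
    have h1 : T G W h ⟨v, hvW⟩ = (l • h) ⟨v, hvW⟩ := by rw [hT]
    rw [T_apply, sum_ext0, PiLp.smul_apply, smul_eq_mul] at h1
    have h2 : h ⟨v, hvW⟩ = ext0 h v := (ext0_mem (h : W → ℝ) ⟨v, hvW⟩).symm
    rw [h2] at h1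
    have h3 : ∑ y ∈ G.neighborFinset v, ext0 h y = (G.degree v - l) * ext0 h v := by
      simp only at h1
      linarith
    have h4 : (G.degree v : ℝ) * M ≤ ∑ y ∈ G.neighborFinset v, |ext0 h y| := by
      have h5 := Finset.abs_sum_le_sum_abs (fun y => ext0 h y) (G.neighborFinset v)
      rw [h3, abs_mul, hv] at h5
      have h6 : (G.degree v : ℝ) ≤ |(G.degree v : ℝ) - l| := by
        have h7 : (0 : ℝ) ≤ G.degree v := Nat.cast_nonneg _
        rw [abs_of_nonneg (by linarith)]
        linarith
      exact (mul_le_mul_of_nonneg_right h6 hMpos.le).trans h5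
    have h5 : ∑ y ∈ G.neighborFinset v, (M - |ext0 h y|) ≤ 0 := by
      rw [Finset.sum_sub_distrib, Finset.sum_const, SimpleGraph.card_neighborFinset_eq_degree,
        nsmul_eq_mul]
      linarith
    have h6 : ∀ y ∈ G.neighborFinset v, 0 ≤ M - |ext0 h y| := fun y _ => by
      have := hle y; linarith
    have h7 := (Finset.sum_eq_zero_iff_of_nonneg h6).1 (le_antisymm h5 (Finset.sum_nonneg h6)) y
      (by rw [SimpleGraph.mem_neighborFinset]; exact hy)
    linarith
  have hall : ∀ v, |ext0 h v| = M := by
    intro v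
    have h1 : |ext0 h (w0 : V)| = M := by rw [ext0_mem]
    obtain ⟨p⟩ := hG.preconnected (w0 : V) v
    generalize (w0 : V) = a at p h1
    induction p with
    | nil => exact h1
    | cons hadj p ih => exact ih (hstep _ h1 _ hadj)
  refine Set.infinite_univ (α := V) (W.finite_toSet.subset fun v _ => ?_)
  by_contra hv
  have := hall v
  rw [ext0_notMem _ hv, abs_zero] at this
  linarith

theorem expSum_coord (hG : G.Connected) [Infinite V] (u : V →₀ ℤ) (W : Finset V)
    (hW : ∀ m, (aeval (lap G) (P m) u).support ⊆ W) (z : V) :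
    ExpSum (fun m => ((aeval (lap G) (P m) u z : ℤ) : ℝ)) := by
  classical
  by_cases hz : z ∈ W
  swap
  · have h1 : (fun m => ((aeval (lap G) (P m) u z : ℤ) : ℝ)) = fun _ => 0 := by
      funext m
      rw [Finsupp.notMem_support_iff.1 (fun h' => hz (hW m h')), Int.cast_zero]
    rw [h1]
    exact ExpSum.zero
  set g : ℕ → EuclideanSpace ℝ W := fun m => WithLp.toLp 2 fun w => ((aeval (lap G) (P m) u w : ℤ) : ℝ)
    with hg
  have hext : ∀ m y, ext0 (g m) y = ((aeval (lap G) (P m) u y : ℤ) : ℝ) := by
    intro m y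
    by_cases hy : y ∈ W
    · exact ext0_mem (g m : W → ℝ) ⟨y, hy⟩
    · rw [ext0_notMem _ hy, Finsupp.notMem_support_iff.1 (fun h' => hy (hW m h')), Int.cast_zero]
  have hTg : ∀ m (w : W), T G W (g m) w = ((lap G (aeval (lap G) (P m) u) w : ℤ) : ℝ) := by
    intro m w
    rw [T_apply, sum_ext0, lap_apply]
    push_cast
    simp only [hext]
    rfl
  have hrec : ∀ m, g (m + 2) = T G W (g (m + 1)) + (2 : ℝ) • g (m + 1) - g m := by
    intro m
    ext w
    rw [PiLp.sub_apply, PiLp.add_apply, PiLp.smul_apply, hTg]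
    simp only [hg]
    rw [P_rec]
    simp only [Finsupp.sub_apply, Finsupp.add_apply, Finsupp.smul_apply, smul_eq_mul]
    push_cast
    rfl
  set n := Module.finrank ℝ (EuclideanSpace ℝ W) with hn
  set b := (T_symm G W).eigenvectorBasis (rfl : Module.finrank ℝ (EuclideanSpace ℝ W) = n) with hb
  have hc : ∀ i, ExpSum (fun m => b.repr (g m) i) := by
    intro i
    have hpos : 0 < (T_symm G W).eigenvalues (rfl : Module.finrank ℝ (EuclideanSpace ℝ W) = n) i := by
      refine eig_pos G hG W (b i) _ ?_ ?_
      · exact b.orthonormal.ne_zero i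
      · have := (T_symm G W).apply_eigenvectorBasis
          (rfl : Module.finrank ℝ (EuclideanSpace ℝ W) = n) i
        simp only [RCLike.ofReal_real_eq_id, id] at this
        exact this
    refine expSum_rec hpos ?_ ?_
    · have h1 : g 0 = 0 := by
        ext w
        simp only [hg]
        rw [P_zero, map_zero]
        simp
      rw [h1, map_zero]; rfl
    · intro m
      have h2 := (T_symm G W).eigenvectorBasis_apply_self_apply
        (rfl : Module.finrank ℝ (EuclideanSpace ℝ W) = n) (g (m + 1)) i
      rw [hrec, map_sub, map_add, map_smul, PiLp.sub_apply, PiLp.add_apply, PiLp.smul_apply, smul_eq_mul]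
      rw [← hb] at h2
      rw [h2]
      simp only [RCLike.ofReal_real_eq_id, id]
      ring
  have h1 : (fun m => ((aeval (lap G) (P m) u z : ℤ) : ℝ)) =
      fun m => ∑ i, (b i ⟨z, hz⟩) * b.repr (g m) i := by
    funext m
    have h2 := b.sum_repr (g m)
    have h3 := congr_arg (fun f : EuclideanSpace ℝ W => f ⟨z, hz⟩) h2
    have h4 : g m ⟨z, hz⟩ = ((aeval (lap G) (P m) u z : ℤ) : ℝ) := rfl
    rw [← h4, ← h3]
    simp [mul_comm]
  rw [h1]
  exact ExpSum.sum fun i _ => (hc i).smul _

end Pool.Agent.R736.HL
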